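import Pool.Agent.Work.MP_2bb1d3_co_h93.Cyc

/-! Adding an arc which crosses the segments of the darts `d 0, …, d (N-1)` near their tails, from
the right to the left, to a combinatorial map. -/

set_option autoImplicit false

namespace Pool.Agent.Work.MP_2bb1d3_co_h93

open Equiv Equiv.Perm

/-- The data of an arc: it starts at the corner after `s0`, ends at the corner after `s1` and
crosses the segments of the darts `d i`. -/
structure ArcData (D : Type) (N : ℕ) where
  σ : Perm D
  α : Perm D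
  d : Fin N → D
  s0 : D
  s1 : D
  hα : ∀ e, α (α e) = e
  inj : ∀ i j, d i = d j → i = j
  dis : ∀ i j, α (d i) ≠ d j
  hs : s0 ≠ s1
  s0d : ∀ i, s0 ≠ d i
  s0a : ∀ i, s0 ≠ α (d i)
  s1d : ∀ i, s1 ≠ d i
  s1a : ∀ i, s1 ≠ α (d i)

/-- The darts of the new map. -/
abbrev Om (D : Type) (N : ℕ) : Type := D ⊕ ((Fin N × Bool) ⊕ (Fin (N + 1) × Bool))

namespace Om

variable {D : Type} {N : ℕ}

/-- old darts -/
def old (e : D) : Om D N := Sum.inl e
/-- at the `i`-th new point, towards the tail of `d i` -/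
def xt (i : Fin N) : Om D N := Sum.inr (Sum.inl (i, false))
/-- at the `i`-th new point, towards the head of `d i` -/
def xh (i : Fin N) : Om D N := Sum.inr (Sum.inl (i, true))
/-- forward dart of the `j`-th segment of the arc -/
def z (j : Fin (N + 1)) : Om D N := Sum.inr (Sum.inr (j, false))
/-- backward dart of the `j`-th segment of the arc -/
def y (j : Fin (N + 1)) : Om D N := Sum.inr (Sum.inr (j, true))

theorem cases_on {P : Om D N → Prop} (e : Om D N) (h1 : ∀ e, P (old e)) (h2 : ∀ i, P (xt i))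
    (h3 : ∀ i, P (xh i)) (h4 : ∀ j, P (z j)) (h5 : ∀ j, P (y j)) : P e := by
  rcases e with e | ⟨i, b⟩ | ⟨j, b⟩
  · exact h1 e
  · cases b
    · exact h2 i
    · exact h3 i
  · cases b
    · exact h4 j
    · exact h5 j

@[simp] theorem old_inj {e e' : D} : (old e : Om D N) = old e' ↔ e = e' := by simp [old]
@[simp] theorem xt_inj {i j : Fin N} : (xt i : Om D N) = xt j ↔ i = j := by simp [xt]
@[simp] theorem xh_inj {i j : Fin N} : (xh i : Om D N) = xh j ↔ i = j := by simp [xh]
@[simp] theorem z_inj {i j : Fin (N + 1)} : (z i : Om D N) = z j ↔ i = j := by simp [z]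
@[simp] theorem y_inj {i j : Fin (N + 1)} : (y i : Om D N) = y j ↔ i = j := by simp [y]
@[simp] theorem old_ne_xt {e : D} {i : Fin N} : (old e : Om D N) ≠ xt i := by simp [old, xt]
@[simp] theorem old_ne_xh {e : D} {i : Fin N} : (old e : Om D N) ≠ xh i := by simp [old, xh]
@[simp] theorem old_ne_z {e : D} {i : Fin (N + 1)} : (old e : Om D N) ≠ z i := by simp [old, z]
@[simp] theorem old_ne_y {e : D} {i : Fin (N + 1)} : (old e : Om D N) ≠ y i := by simp [old, y]
@[simp] theorem xt_ne_old {e : D} {i : Fin N} : (xt i : Om D N) ≠ old e := by simp [old, xt]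
@[simp] theorem xt_ne_xh {i j : Fin N} : (xt i : Om D N) ≠ xh j := by simp [xt, xh]
@[simp] theorem xt_ne_z {i : Fin N} {j : Fin (N + 1)} : (xt i : Om D N) ≠ z j := by simp [xt, z]
@[simp] theorem xt_ne_y {i : Fin N} {j : Fin (N + 1)} : (xt i : Om D N) ≠ y j := by simp [xt, y]
@[simp] theorem xh_ne_old {e : D} {i : Fin N} : (xh i : Om D N) ≠ old e := by simp [old, xh]
@[simp] theorem xh_ne_xt {i j : Fin N} : (xh i : Om D N) ≠ xt j := by simp [xt, xh]
@[simp] theorem xh_ne_z {i : Fin N} {j : Fin (N + 1)} : (xh i : Om D N) ≠ z j := by simp [xh, z]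
@[simp] theorem xh_ne_y {i : Fin N} {j : Fin (N + 1)} : (xh i : Om D N) ≠ y j := by simp [xh, y]
@[simp] theorem z_ne_old {e : D} {i : Fin (N + 1)} : (z i : Om D N) ≠ old e := by simp [old, z]
@[simp] theorem z_ne_xt {i : Fin N} {j : Fin (N + 1)} : (z j : Om D N) ≠ xt i := by simp [xt, z]
@[simp] theorem z_ne_xh {i : Fin N} {j : Fin (N + 1)} : (z j : Om D N) ≠ xh i := by simp [xh, z]
@[simp] theorem z_ne_y {i j : Fin (N + 1)} : (z i : Om D N) ≠ y j := by simp [z, y]
@[simp] theorem y_ne_old {e : D} {i : Fin (N + 1)} : (y i : Om D N) ≠ old e := by simp [old, y]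
@[simp] theorem y_ne_xt {i : Fin N} {j : Fin (N + 1)} : (y j : Om D N) ≠ xt i := by simp [xt, y]
@[simp] theorem y_ne_xh {i : Fin N} {j : Fin (N + 1)} : (y j : Om D N) ≠ xh i := by simp [xh, y]
@[simp] theorem y_ne_z {i j : Fin (N + 1)} : (y i : Om D N) ≠ z j := by simp [z, y]

end Om

open Om

theorem seq_bound (M : ℕ) (a : ℕ → ℕ) (Bad : Finset (Fin M))
    (h3 : ∀ J : Fin M, a J.val ≤ a (J.val + 1) + 3)
    (h1 : ∀ J ∉ Bad, a J.val ≤ a (J.val + 1) + 1) : a 0 ≤ a M + M + 2 * Bad.card := by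
  classical
  have key : ∀ j ≤ M, a 0 ≤ a j + j + 2 * (Bad.filter fun J => J.val < j).card := by
    intro j
    induction j with
    | zero => intro _; omega
    | succ j ih =>
      intro hj
      have h0 := ih (by omega)
      by_cases hb : (⟨j, by omega⟩ : Fin M) ∈ Bad
      · have h2 := h3 ⟨j, by omega⟩
        have h4 : (Bad.filter fun K => K.val < j).card + 1 ≤
            (Bad.filter fun K => K.val < j + 1).card := by
          rw [← Finset.card_insert_of_notMem (a := (⟨j, by omega⟩ : Fin M))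
            (s := Bad.filter fun K => K.val < j) (by simp)]
          refine Finset.card_le_card ?_
          intro K hK
          rw [Finset.mem_insert, Finset.mem_filter] at hK
          rw [Finset.mem_filter]
          rcases hK with rfl | ⟨h5, h6⟩
          · exact ⟨hb, by simp⟩
          · exact ⟨h5, by omega⟩
        simp only at h2
        omega
      · have h2 := h1 _ hb
        have h4 : (Bad.filter fun K => K.val < j).card ≤
            (Bad.filter fun K => K.val < j + 1).card := by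
          refine Finset.card_le_card ?_
          intro K hK
          rw [Finset.mem_filter] at hK ⊢
          exact ⟨hK.1, by omega⟩
        simp only at h2
        omega
  have h := key M (le_refl _)
  have h2 : (Bad.filter fun J => J.val < M).card ≤ Bad.card := Finset.card_filter_le _ _
  omega

namespace ArcData

variable {D : Type} {N : ℕ} (A : ArcData D N)

open Classical in
/-- The subdivided opposite map, as a function. -/
noncomputable def α1f : Om D N → Om D N
  | Sum.inl e => if h : ∃ i, A.d i = e then xt h.choose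
      else if h : ∃ i, A.α (A.d i) = e then xh h.choose else old (A.α e)
  | Sum.inr (Sum.inl (i, false)) => old (A.d i)
  | Sum.inr (Sum.inl (i, true)) => old (A.α (A.d i))
  | Sum.inr (Sum.inr (j, b)) => Sum.inr (Sum.inr (j, b))

theorem α1f_d (i : Fin N) : A.α1f (old (A.d i)) = xt i := by
  have h : ∃ j, A.d j = A.d i := ⟨i, rfl⟩
  simp only [α1f, old, dif_pos h, xt_inj]
  exact A.inj _ _ h.choose_spec

theorem α1f_αd (i : Fin N) : A.α1f (old (A.α (A.d i))) = xh i := by
  have h0 : ¬ ∃ j, A.d j = A.α (A.d i) := by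
    rintro ⟨j, hj⟩; exact A.dis i j hj.symm
  have h : ∃ j, A.α (A.d j) = A.α (A.d i) := ⟨i, rfl⟩
  simp only [α1f, old, dif_neg h0, dif_pos h, xh_inj]
  exact A.inj _ _ (A.α.injective h.choose_spec)

theorem α1f_old {e : D} (h1 : ∀ i, e ≠ A.d i) (h2 : ∀ i, e ≠ A.α (A.d i)) :
    A.α1f (old e) = old (A.α e) := by
  have h0 : ¬ ∃ j, A.d j = e := by rintro ⟨j, hj⟩; exact h1 j hj.symm
  have h : ¬ ∃ j, A.α (A.d j) = e := by rintro ⟨j, hj⟩; exact h2 j hj.symm
  simp only [α1f, old, dif_neg h0, dif_neg h]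

theorem α1f_invol : Function.Involutive A.α1f := by
  intro e
  refine cases_on (P := fun e => A.α1f (A.α1f e) = e) e ?_ ?_ ?_ ?_ ?_
  · intro e
    by_cases h1 : ∃ i, e = A.d i
    · obtain ⟨i, rfl⟩ := h1
      rw [α1f_d]; rfl
    · by_cases h2 : ∃ i, e = A.α (A.d i)
      · obtain ⟨i, rfl⟩ := h2
        rw [α1f_αd]; rfl
      · push Not at h1 h2
        rw [α1f_old A h1 h2, α1f_old, A.hα]
        · intro i h
          exact h2 i (by rw [← h, A.hα])
        · intro i h
          exact h1 i (A.α.injective h)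
  · intro i; exact A.α1f_d i
  · intro i; exact A.α1f_αd i
  · intro j; rfl
  · intro j; rfl

/-- The subdivided opposite map. -/
noncomputable def α1 : Perm (Om D N) := A.α1f_invol.toPerm

theorem α1_d (i : Fin N) : A.α1 (old (A.d i)) = xt i := A.α1f_d i
theorem α1_αd (i : Fin N) : A.α1 (old (A.α (A.d i))) = xh i := A.α1f_αd i
theorem α1_old {e : D} (h1 : ∀ i, e ≠ A.d i) (h2 : ∀ i, e ≠ A.α (A.d i)) :
    A.α1 (old e) = old (A.α e) := A.α1f_old h1 h2
@[simp] theorem α1_xt (i : Fin N) : A.α1 (xt i) = old (A.d i) := rfl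
@[simp] theorem α1_xh (i : Fin N) : A.α1 (xh i) = old (A.α (A.d i)) := rfl
@[simp] theorem α1_z (j : Fin (N + 1)) : A.α1 (z j) = z j := rfl
@[simp] theorem α1_y (j : Fin (N + 1)) : A.α1 (y j) = y j := rfl
@[simp] theorem α1_α1 (e : Om D N) : A.α1 (A.α1 e) = e := A.α1f_invol e

/-- The rotation of the subdivided map. -/
def σ1 : Perm (Om D N) :=
  Equiv.sumCongr A.σ (Equiv.sumCongr (Equiv.prodCongr (Equiv.refl _) Equiv.boolNot)
    (Equiv.refl _))

@[simp] theorem σ1_old (e : D) : A.σ1 (old e) = old (A.σ e) := rfl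
@[simp] theorem σ1_xt (i : Fin N) : A.σ1 (xt i) = xh i := rfl
@[simp] theorem σ1_xh (i : Fin N) : A.σ1 (xh i) = xt i := rfl
@[simp] theorem σ1_z (j : Fin (N + 1)) : A.σ1 (z j) = z j := rfl
@[simp] theorem σ1_y (j : Fin (N + 1)) : A.σ1 (y j) = y j := rfl

/-- The dart after which the forward dart of the `j`-th segment is inserted. -/
def cz (j : Fin (N + 1)) : Om D N := Fin.cases (old A.s0) (fun i => xh i) j
/-- The dart after which the backward dart of the `j`-th segment is inserted. -/
def cy (j : Fin (N + 1)) : Om D N := Fin.lastCases (old A.s1) (fun i => xt i) j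

@[simp] theorem cz_zero : A.cz 0 = old A.s0 := rfl
@[simp] theorem cz_succ (i : Fin N) : A.cz i.succ = xh i := rfl
@[simp] theorem cy_last : A.cy (Fin.last N) = old A.s1 := by simp [cy]
@[simp] theorem cy_castSucc (i : Fin N) : A.cy i.castSucc = xt i := by simp [cy]

theorem cz_inj {j k : Fin (N + 1)} (h : A.cz j = A.cz k) : j = k := by
  induction j using Fin.cases with
  | zero =>
    induction k using Fin.cases with
    | zero => rfl
    | succ k => simp at h
  | succ j =>
    induction k using Fin.cases with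
    | zero => simp at h
    | succ k => simp at h; rw [h]

theorem cy_inj {j k : Fin (N + 1)} (h : A.cy j = A.cy k) : j = k := by
  induction j using Fin.lastCases with
  | last =>
    induction k using Fin.lastCases with
    | last => rfl
    | cast k => simp at h
  | cast j =>
    induction k using Fin.lastCases with
    | last => simp at h
    | cast k => simp at h; rw [h]

theorem cz_ne_cy (j k : Fin (N + 1)) : A.cz j ≠ A.cy k := by
  induction j using Fin.cases with
  | zero =>
    induction k using Fin.lastCases with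
    | last => simpa using A.hs
    | cast k => simp
  | succ j =>
    induction k using Fin.lastCases with
    | last => simp
    | cast k => simp

@[simp] theorem cz_ne_z (j k : Fin (N + 1)) : A.cz j ≠ z k := by
  induction j using Fin.cases with
  | zero => simp
  | succ j => simp

@[simp] theorem cz_ne_y (j k : Fin (N + 1)) : A.cz j ≠ y k := by
  induction j using Fin.cases with
  | zero => simp
  | succ j => simp

@[simp] theorem cy_ne_z (j k : Fin (N + 1)) : A.cy j ≠ z k := by
  induction j using Fin.lastCases with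
  | last => simp
  | cast j => simp

@[simp] theorem cy_ne_y (j k : Fin (N + 1)) : A.cy j ≠ y k := by
  induction j using Fin.lastCases with
  | last => simp
  | cast j => simp

/-- Decidable equality on the darts, by choice. -/
@[reducible] noncomputable def dec (D : Type) (N : ℕ) : DecidableEq (Om D N) :=
  Classical.decEq _

attribute [local instance] dec

/-- The insertions of the first `j` segments. -/
noncomputable def T : ℕ → Perm (Om D N)
  | 0 => 1
  | j + 1 => T j * (if h : j < N + 1 then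
      swap (A.cz ⟨j, h⟩) (z ⟨j, h⟩) * swap (A.cy ⟨j, h⟩) (y ⟨j, h⟩) else 1)

/-- The first `j` segments. -/
noncomputable def B (D : Type) (N : ℕ) : ℕ → Perm (Om D N)
  | 0 => 1
  | j + 1 => B D N j * (if h : j < N + 1 then swap (z ⟨j, h⟩) (y ⟨j, h⟩) else 1)

theorem T_spec (j : ℕ) :
    (∀ k : Fin (N + 1), k.val < j → A.T j (A.cz k) = z k ∧ A.T j (z k) = A.cz k ∧
      A.T j (A.cy k) = y k ∧ A.T j (y k) = A.cy k) ∧
    (∀ e, (∀ k : Fin (N + 1), k.val < j → e ≠ A.cz k ∧ e ≠ z k ∧ e ≠ A.cy k ∧ e ≠ y k) →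
      A.T j e = e) := by
  induction j with
  | zero => exact ⟨fun k hk => absurd hk (by omega), fun e _ => rfl⟩
  | succ j ih =>
    obtain ⟨ih1, ih2⟩ := ih
    by_cases hj : j < N + 1
    · have hT : A.T (j + 1) = A.T j *
          (swap (A.cz ⟨j, hj⟩) (z ⟨j, hj⟩) * swap (A.cy ⟨j, hj⟩) (y ⟨j, hj⟩)) := by
        simp only [T, dif_pos hj]
      set J : Fin (N + 1) := ⟨j, hj⟩ with hJ
      have hfix : ∀ e, (∀ k : Fin (N + 1), k.val < j →
          e ≠ A.cz k ∧ e ≠ z k ∧ e ≠ A.cy k ∧ e ≠ y k) → A.T j e = e := ih2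
      have hlt : ∀ k : Fin (N + 1), k.val < j → k ≠ J := by
        intro k hk h
        rw [h, hJ] at hk
        exact absurd hk (lt_irrefl _)
      have f1 : A.T j (A.cz J) = A.cz J := hfix _ fun k hk =>
        ⟨fun h => hlt k hk (A.cz_inj h).symm, A.cz_ne_z _ _, A.cz_ne_cy _ _, A.cz_ne_y _ _⟩
      have f2 : A.T j (z J) = z J := hfix _ fun k hk =>
        ⟨(A.cz_ne_z _ _).symm, fun h => hlt k hk (z_inj.1 h).symm, (A.cy_ne_z _ _).symm, by simp⟩
      have f3 : A.T j (A.cy J) = A.cy J := hfix _ fun k hk =>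
        ⟨(A.cz_ne_cy _ _).symm, A.cy_ne_z _ _, fun h => hlt k hk (A.cy_inj h).symm,
          A.cy_ne_y _ _⟩
      have f4 : A.T j (y J) = y J := hfix _ fun k hk =>
        ⟨(A.cz_ne_y _ _).symm, by simp, (A.cy_ne_y _ _).symm,
          fun h => hlt k hk (y_inj.1 h).symm⟩
      have g : ∀ e, e ≠ A.cz J → e ≠ z J → e ≠ A.cy J → e ≠ y J → A.T (j + 1) e = A.T j e := by
        intro e h1 h2 h3 h4
        rw [hT, Perm.mul_apply, Perm.mul_apply, swap_apply_of_ne_of_ne h3 h4,
          swap_apply_of_ne_of_ne h1 h2]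
      refine ⟨fun k hk => ?_, fun e he => ?_⟩
      · by_cases hkJ : k = J
        · subst hkJ
          refine ⟨?_, ?_, ?_, ?_⟩
          · rw [hT, Perm.mul_apply, Perm.mul_apply,
              swap_apply_of_ne_of_ne (A.cz_ne_cy _ _) (A.cz_ne_y _ _), swap_apply_left, f2]
          · rw [hT, Perm.mul_apply, Perm.mul_apply,
              swap_apply_of_ne_of_ne (A.cy_ne_z _ _).symm (by simp), swap_apply_right, f1]
          · rw [hT, Perm.mul_apply, Perm.mul_apply, swap_apply_left,
              swap_apply_of_ne_of_ne (A.cz_ne_y _ _).symm (by simp), f4]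
          · rw [hT, Perm.mul_apply, Perm.mul_apply, swap_apply_right,
              swap_apply_of_ne_of_ne (A.cz_ne_cy _ _).symm (A.cy_ne_z _ _), f3]
        · have hk' : k.val < j := by
            have : k.val ≠ j := fun h => hkJ (Fin.ext h)
            omega
          obtain ⟨e1, e2, e3, e4⟩ := ih1 k hk'
          refine ⟨?_, ?_, ?_, ?_⟩
          · rw [g _ (fun h => hkJ (A.cz_inj h)) (A.cz_ne_z _ _) (A.cz_ne_cy _ _)
              (A.cz_ne_y _ _), e1]
          · rw [g _ (A.cz_ne_z _ _).symm (fun h => hkJ (z_inj.1 h)) (A.cy_ne_z _ _).symm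
              (by simp), e2]
          · rw [g _ (A.cz_ne_cy _ _).symm (A.cy_ne_z _ _) (fun h => hkJ (A.cy_inj h))
              (A.cy_ne_y _ _), e3]
          · rw [g _ (A.cz_ne_y _ _).symm (by simp) (A.cy_ne_y _ _).symm
              (fun h => hkJ (y_inj.1 h)), e4]
      · obtain ⟨h1, h2, h3, h4⟩ := he J (by simp [hJ])
        rw [g e h1 h2 h3 h4]
        exact ih2 e fun k hk => he k (by omega)
    · have hT : A.T (j + 1) = A.T j := by simp only [T, dif_neg hj, mul_one]
      rw [hT]
      exact ⟨fun k hk => ih1 k (by have := k.isLt; omega), fun e he => ih2 e fun k hk =>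
        he k (by omega)⟩

theorem B_spec (j : ℕ) :
    (∀ k : Fin (N + 1), k.val < j → B D N j (z k) = y k ∧ B D N j (y k) = z k) ∧
    (∀ e : Om D N, (∀ k : Fin (N + 1), k.val < j → e ≠ z k ∧ e ≠ y k) → B D N j e = e) := by
  induction j with
  | zero => exact ⟨fun k hk => absurd hk (by omega), fun e _ => rfl⟩
  | succ j ih =>
    obtain ⟨ih1, ih2⟩ := ih
    by_cases hj : j < N + 1
    · have hT : B D N (j + 1) = B D N j * swap (z ⟨j, hj⟩) (y ⟨j, hj⟩) := by
        simp only [B, dif_pos hj]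
      set J : Fin (N + 1) := ⟨j, hj⟩ with hJ
      have hlt : ∀ k : Fin (N + 1), k.val < j → k ≠ J := by
        intro k hk h
        rw [h, hJ] at hk
        exact absurd hk (lt_irrefl _)
      have f2 : B D N j (z J) = z J := ih2 _ fun k hk =>
        ⟨fun h => hlt k hk (z_inj.1 h).symm, by simp⟩
      have f4 : B D N j (y J) = y J := ih2 _ fun k hk =>
        ⟨by simp, fun h => hlt k hk (y_inj.1 h).symm⟩
      have g : ∀ e, e ≠ z J → e ≠ y J → B D N (j + 1) e = B D N j e := by
        intro e h2 h4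
        rw [hT, Perm.mul_apply, swap_apply_of_ne_of_ne h2 h4]
      refine ⟨fun k hk => ?_, fun e he => ?_⟩
      · by_cases hkJ : k = J
        · subst hkJ
          exact ⟨by rw [hT, Perm.mul_apply, swap_apply_left, f4],
            by rw [hT, Perm.mul_apply, swap_apply_right, f2]⟩
        · have hk' : k.val < j := by
            have : k.val ≠ j := fun h => hkJ (Fin.ext h)
            omega
          obtain ⟨e1, e2⟩ := ih1 k hk'
          exact ⟨by rw [g _ (fun h => hkJ (z_inj.1 h)) (by simp), e1],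
            by rw [g _ (by simp) (fun h => hkJ (y_inj.1 h)), e2]⟩
      · obtain ⟨h2, h4⟩ := he J (by simp [hJ])
        rw [g e h2 h4]
        exact ih2 e fun k hk => he k (by omega)
    · have hT : B D N (j + 1) = B D N j := by simp only [B, dif_neg hj, mul_one]
      rw [hT]
      exact ⟨fun k hk => ih1 k (by have := k.isLt; omega), fun e he => ih2 e fun k hk =>
        he k (by omega)⟩

/-- The face permutation after `j` segments. -/
noncomputable def φ (j : ℕ) : Perm (Om D N) := A.σ1 * A.T j * (A.α1 * B D N j)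

theorem φ_apply (j : ℕ) (e : Om D N) : A.φ j e = A.σ1 (A.T j (A.α1 (B D N j e))) := rfl

/-- The new rotation. -/
noncomputable def rot' : Perm (Om D N) := A.σ1 * A.T (N + 1)

/-- The new opposite map. -/
noncomputable def opp' : Perm (Om D N) := A.α1 * B D N (N + 1)

theorem φ_last : A.φ (N + 1) = A.rot' * A.opp' := rfl

/-- a dart which is not a dart of the arc -/
def NotArc (e : Om D N) : Prop := ∀ k : Fin (N + 1), e ≠ z k ∧ e ≠ y k

theorem notArc_old (e : D) : NotArc (old e : Om D N) := fun k => ⟨by simp, by simp⟩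
theorem notArc_xt (i : Fin N) : NotArc (xt i : Om D N) := fun k => ⟨by simp, by simp⟩
theorem notArc_xh (i : Fin N) : NotArc (xh i : Om D N) := fun k => ⟨by simp, by simp⟩
theorem notArc_cz (j : Fin (N + 1)) : NotArc (A.cz j) := fun k => ⟨by simp, by simp⟩
theorem notArc_cy (j : Fin (N + 1)) : NotArc (A.cy j) := fun k => ⟨by simp, by simp⟩

theorem notArc_α1 {e : Om D N} (h : NotArc e) : NotArc (A.α1 e) := by
  intro k
  refine ⟨fun h1 => (h k).1 ?_, fun h1 => (h k).2 ?_⟩
  · rw [← A.α1_α1 e, h1, α1_z]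
  · rw [← A.α1_α1 e, h1, α1_y]

theorem B_notArc {e : Om D N} (h : NotArc e) (j : ℕ) : B D N j e = e :=
  (B_spec j).2 e fun k _ => h k

theorem φ_succ (j : ℕ) (hj : j < N + 1) :
    A.φ (j + 1) = A.φ j * swap (A.α1 (A.cz ⟨j, hj⟩)) (z ⟨j, hj⟩) *
      swap (A.α1 (A.cy ⟨j, hj⟩)) (y ⟨j, hj⟩) * swap (z ⟨j, hj⟩) (y ⟨j, hj⟩) := by
  set J : Fin (N + 1) := ⟨j, hj⟩ with hJ
  have hlt : ∀ k : Fin (N + 1), k.val < j → k ≠ J := by
    intro k hk h
    rw [h, hJ] at hk
    exact absurd hk (lt_irrefl _)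
  have bz : B D N j (z J) = z J := (B_spec j).2 _ fun k hk =>
    ⟨fun h => hlt k hk (z_inj.1 h).symm, by simp⟩
  have b_y : B D N j (y J) = y J := (B_spec j).2 _ fun k hk =>
    ⟨by simp, fun h => hlt k hk (y_inj.1 h).symm⟩
  have e1 : (A.α1 * B D N j) (A.α1 (A.cz J)) = A.cz J := by
    rw [Perm.mul_apply, B_notArc (A.notArc_α1 (A.notArc_cz J)), α1_α1]
  have e2 : (A.α1 * B D N j) (z J) = z J := by rw [Perm.mul_apply, bz, α1_z]
  have e3 : (A.α1 * B D N j) (A.α1 (A.cy J)) = A.cy J := by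
    rw [Perm.mul_apply, B_notArc (A.notArc_α1 (A.notArc_cy J)), α1_α1]
  have e4 : (A.α1 * B D N j) (y J) = y J := by rw [Perm.mul_apply, b_y, α1_y]
  have h1 : swap (A.cz J) (z J) * (A.α1 * B D N j) =
      (A.α1 * B D N j) * swap (A.α1 (A.cz J)) (z J) := by
    rw [mul_swap_eq_swap_mul, e1, e2]
  have h2 : swap (A.cy J) (y J) * (A.α1 * B D N j) =
      (A.α1 * B D N j) * swap (A.α1 (A.cy J)) (y J) := by
    rw [mul_swap_eq_swap_mul, e3, e4]
  have hT : A.T (j + 1) = A.T j * (swap (A.cz J) (z J) * swap (A.cy J) (y J)) := by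
    simp only [T, dif_pos hj]
    rfl
  have hB : B D N (j + 1) = B D N j * swap (z J) (y J) := by
    simp only [B, dif_pos hj]
    rfl
  unfold φ
  rw [hT, hB]
  calc A.σ1 * (A.T j * (swap (A.cz J) (z J) * swap (A.cy J) (y J))) *
        (A.α1 * (B D N j * swap (z J) (y J)))
      = A.σ1 * A.T j * (swap (A.cz J) (z J) * (swap (A.cy J) (y J) * (A.α1 * B D N j))) *
          swap (z J) (y J) := by group
    _ = A.σ1 * A.T j * (A.α1 * B D N j) * swap (A.α1 (A.cz J)) (z J) *
      swap (A.α1 (A.cy J)) (y J) * swap (z J) (y J) := by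
        rw [h2, ← mul_assoc (swap (A.cz J) (z J)), h1]
        group

/-! ### The new maps on the darts -/

theorem T_last_cz (j : Fin (N + 1)) : A.T (N + 1) (A.cz j) = z j :=
  ((A.T_spec (N + 1)).1 j j.isLt).1
theorem T_last_z (j : Fin (N + 1)) : A.T (N + 1) (z j) = A.cz j :=
  ((A.T_spec (N + 1)).1 j j.isLt).2.1
theorem T_last_cy (j : Fin (N + 1)) : A.T (N + 1) (A.cy j) = y j :=
  ((A.T_spec (N + 1)).1 j j.isLt).2.2.1
theorem T_last_y (j : Fin (N + 1)) : A.T (N + 1) (y j) = A.cy j :=
  ((A.T_spec (N + 1)).1 j j.isLt).2.2.2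

theorem T_old {e : D} (h0 : e ≠ A.s0) (h1 : e ≠ A.s1) (j : ℕ) :
    A.T j (old e) = old e := by
  refine (A.T_spec j).2 _ fun k _ => ⟨?_, by simp, ?_, by simp⟩
  · induction k using Fin.cases with
    | zero => simpa using h0
    | succ k => simp
  · induction k using Fin.lastCases with
    | last => simpa using h1
    | cast k => simp

theorem rot'_s0 : A.rot' (old A.s0) = z 0 := by
  rw [rot', Perm.mul_apply, ← A.cz_zero, T_last_cz, σ1_z]

theorem rot'_s1 : A.rot' (old A.s1) = y (Fin.last N) := by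
  rw [rot', Perm.mul_apply, ← A.cy_last, T_last_cy, σ1_y]

theorem rot'_old {e : D} (h0 : e ≠ A.s0) (h1 : e ≠ A.s1) : A.rot' (old e) = old (A.σ e) := by
  rw [rot', Perm.mul_apply, T_old A h0 h1, σ1_old]

@[simp] theorem rot'_xt (i : Fin N) : A.rot' (xt i) = y i.castSucc := by
  rw [rot', Perm.mul_apply, ← A.cy_castSucc, T_last_cy, σ1_y]

@[simp] theorem rot'_xh (i : Fin N) : A.rot' (xh i) = z i.succ := by
  rw [rot', Perm.mul_apply, ← A.cz_succ, T_last_cz, σ1_z]

@[simp] theorem rot'_z0 : A.rot' (z 0) = old (A.σ A.s0) := by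
  rw [rot', Perm.mul_apply, T_last_z, cz_zero, σ1_old]

@[simp] theorem rot'_zs (i : Fin N) : A.rot' (z i.succ) = xt i := by
  rw [rot', Perm.mul_apply, T_last_z, cz_succ, σ1_xh]

@[simp] theorem rot'_yc (i : Fin N) : A.rot' (y i.castSucc) = xh i := by
  rw [rot', Perm.mul_apply, T_last_y, cy_castSucc, σ1_xt]

@[simp] theorem rot'_yl : A.rot' (y (Fin.last N)) = old (A.σ A.s1) := by
  rw [rot', Perm.mul_apply, T_last_y, cy_last, σ1_old]

theorem B_last_z (j : Fin (N + 1)) : B D N (N + 1) (z j) = y j :=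
  ((B_spec (N + 1)).1 j j.isLt).1
theorem B_last_y (j : Fin (N + 1)) : B D N (N + 1) (y j) = z j :=
  ((B_spec (N + 1)).1 j j.isLt).2

@[simp] theorem opp'_z (j : Fin (N + 1)) : A.opp' (z j) = y j := by
  rw [opp', Perm.mul_apply, B_last_z, α1_y]
@[simp] theorem opp'_y (j : Fin (N + 1)) : A.opp' (y j) = z j := by
  rw [opp', Perm.mul_apply, B_last_y, α1_z]
@[simp] theorem opp'_xt (i : Fin N) : A.opp' (xt i) = old (A.d i) := by
  rw [opp', Perm.mul_apply, B_notArc (notArc_xt i), α1_xt]
@[simp] theorem opp'_xh (i : Fin N) : A.opp' (xh i) = old (A.α (A.d i)) := by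
  rw [opp', Perm.mul_apply, B_notArc (notArc_xh i), α1_xh]
theorem opp'_d (i : Fin N) : A.opp' (old (A.d i)) = xt i := by
  rw [opp', Perm.mul_apply, B_notArc (notArc_old _), α1_d]
theorem opp'_αd (i : Fin N) : A.opp' (old (A.α (A.d i))) = xh i := by
  rw [opp', Perm.mul_apply, B_notArc (notArc_old _), α1_αd]
theorem opp'_old {e : D} (h1 : ∀ i, e ≠ A.d i) (h2 : ∀ i, e ≠ A.α (A.d i)) :
    A.opp' (old e) = old (A.α e) := by
  rw [opp', Perm.mul_apply, B_notArc (notArc_old _), α1_old A h1 h2]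

/-! ### Counting -/

theorem cyc_rot' [Finite D] : cyc A.σ + N ≤ cyc A.rot' := by
  have h0 := cyc_sumCongr_one (X := Fin N) A.σ
  rw [Nat.card_fin] at h0
  refine h0.trans ?_
  let f : Om D N → D ⊕ Fin N := fun e => match e with
    | Sum.inl e => Sum.inl e
    | Sum.inr (Sum.inl (i, _)) => Sum.inr i
    | Sum.inr (Sum.inr (j, false)) => Fin.cases (Sum.inl A.s0) (fun i => Sum.inr i) j
    | Sum.inr (Sum.inr (j, true)) => Fin.lastCases (Sum.inl A.s1) (fun i => Sum.inr i) j
  have fo : ∀ e, f (old e) = Sum.inl e := fun e => rfl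
  have fxt : ∀ i, f (xt i) = Sum.inr i := fun e => rfl
  have fxh : ∀ i, f (xh i) = Sum.inr i := fun e => rfl
  have fz0 : f (z 0) = Sum.inl A.s0 := rfl
  have fzs : ∀ i : Fin N, f (z i.succ) = Sum.inr i := fun e => rfl
  have fyl : f (y (Fin.last N)) = Sum.inl A.s1 := by simp [f, y]
  have fyc : ∀ i : Fin N, f (y i.castSucc) = Sum.inr i := fun e => by simp [f, y]
  have step : ∀ e, SameCycle (Equiv.Perm.sumCongr A.σ (1 : Perm (Fin N))) (Sum.inl e)
      (Sum.inl (A.σ e)) := fun e => ⟨1, rfl⟩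
  refine cyc_le_of_retract f ?_ ?_
  · rintro (e | i)
    · exact ⟨old e, rfl⟩
    · exact ⟨xt i, rfl⟩
  · intro e
    refine cases_on (P := fun e => SameCycle (Equiv.Perm.sumCongr A.σ (1 : Perm (Fin N))) (f e)
      (f (A.rot' e))) e ?_ ?_ ?_ ?_ ?_
    · intro e
      by_cases h0 : e = A.s0
      · rw [h0, rot'_s0, fo, fz0]
      by_cases h1 : e = A.s1
      · rw [h1, rot'_s1, fo, fyl]
      rw [rot'_old A h0 h1, fo, fo]
      exact step e
    · intro i; rw [rot'_xt, fxt, fyc]
    · intro i; rw [rot'_xh, fxh, fzs]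
    · intro j
      induction j using Fin.cases with
      | zero => rw [rot'_z0, fz0, fo]; exact step _
      | succ j => rw [rot'_zs, fzs, fxt]
    · intro j
      induction j using Fin.lastCases with
      | last => rw [rot'_yl, fyl, fo]; exact step _
      | cast j => rw [rot'_yc, fyc, fxh]

theorem cyc_φ0 [Finite D] : cyc (A.σ * A.α) + 2 * (N + 1) ≤ cyc (A.φ 0) := by
  have h0 := cyc_sumCongr_one (X := Fin (N + 1) × Bool) (A.σ * A.α)
  rw [Nat.card_prod, Nat.card_fin, Nat.card_eq_fintype_card, Fintype.card_bool] at h0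
  refine le_trans (by omega) (h0.trans ?_)
  let f : Om D N → D ⊕ (Fin (N + 1) × Bool) := fun e => match e with
    | Sum.inl e => Sum.inl e
    | Sum.inr (Sum.inl (i, true)) => Sum.inl (A.d i)
    | Sum.inr (Sum.inl (i, false)) => Sum.inl (A.α (A.d i))
    | Sum.inr (Sum.inr x) => Sum.inr x
  set π := Equiv.Perm.sumCongr (A.σ * A.α) (1 : Perm (Fin (N + 1) × Bool)) with hπ
  have step : ∀ e, SameCycle π (Sum.inl e) (Sum.inl (A.σ (A.α e))) := fun e => ⟨1, rfl⟩
  have hφ : ∀ e, A.φ 0 e = A.σ1 (A.α1 e) := fun e => rfl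
  refine cyc_le_of_retract f ?_ ?_
  · rintro (e | x)
    · exact ⟨old e, rfl⟩
    · exact ⟨Sum.inr (Sum.inr x), rfl⟩
  · intro e
    refine cases_on (P := fun e => SameCycle π (f e) (f (A.φ 0 e))) e ?_ ?_ ?_ ?_ ?_
    · intro e
      by_cases h1 : ∃ i, e = A.d i
      · obtain ⟨i, rfl⟩ := h1
        rw [hφ, α1_d, σ1_xt]
        exact SameCycle.refl _ _
      · by_cases h2 : ∃ i, e = A.α (A.d i)
        · obtain ⟨i, rfl⟩ := h2
          rw [hφ, α1_αd, σ1_xh]
          exact SameCycle.refl _ _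
        · push Not at h1 h2
          rw [hφ, α1_old A h1 h2, σ1_old]
          exact step e
    · intro i
      rw [hφ, α1_xt, σ1_old]
      have := step (A.α (A.d i))
      rwa [A.hα] at this
    · intro i
      rw [hφ, α1_xh, σ1_old]
      exact step (A.d i)
    · intro j; exact SameCycle.refl _ _
    · intro j; exact SameCycle.refl _ _

theorem T_fix_z {j : ℕ} {J : Fin (N + 1)} (h : j ≤ J.val) : A.T j (z J) = z J :=
  (A.T_spec j).2 _ fun k hk => ⟨(A.cz_ne_z _ _).symm,
    fun h' => by rw [z_inj] at h'; rw [h'] at h; omega, (A.cy_ne_z _ _).symm, by simp⟩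

theorem T_fix_y {j : ℕ} {J : Fin (N + 1)} (h : j ≤ J.val) : A.T j (y J) = y J :=
  (A.T_spec j).2 _ fun k hk => ⟨(A.cz_ne_y _ _).symm, by simp, (A.cy_ne_y _ _).symm,
    fun h' => by rw [y_inj] at h'; rw [h'] at h; omega⟩

theorem T_fix_xh {j : ℕ} {i : Fin N} (h : j ≤ i.val + 1) : A.T j (xh i) = xh i :=
  (A.T_spec j).2 _ fun k hk => ⟨fun h' => by
    rw [← A.cz_succ] at h'
    have := A.cz_inj h'
    rw [← this, Fin.val_succ] at hk; omega, by simp, fun h' => by
      rw [← A.cz_succ] at h'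
      exact A.cz_ne_cy _ _ h', by simp⟩

theorem T_fix_xt {j : ℕ} {i : Fin N} (h : j ≤ i.val) : A.T j (xt i) = xt i :=
  (A.T_spec j).2 _ fun k hk => ⟨fun h' => by
    rw [← A.cy_castSucc] at h'
    exact A.cz_ne_cy _ _ h'.symm, by simp, fun h' => by
      rw [← A.cy_castSucc] at h'
      have := A.cy_inj h'
      rw [← this, Fin.val_castSucc] at hk; omega, by simp⟩

theorem B_fix_z {j : ℕ} {J : Fin (N + 1)} (h : j ≤ J.val) : B D N j (z J) = z J :=
  (B_spec j).2 _ fun k hk => ⟨fun h' => by rw [z_inj] at h'; rw [h'] at h; omega, by simp⟩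

theorem B_fix_y {j : ℕ} {J : Fin (N + 1)} (h : j ≤ J.val) : B D N j (y J) = y J :=
  (B_spec j).2 _ fun k hk => ⟨by simp, fun h' => by rw [y_inj] at h'; rw [h'] at h; omega⟩

/-- The `J`-th segment joins two corners of the same face. -/
def Good (J : Fin (N + 1)) : Prop :=
  SameCycle (A.φ J.val) (A.α1 (A.cz J)) (A.α1 (A.cy J))

theorem cyc_stage [Finite D] (J : Fin (N + 1)) : cyc (A.φ J.val) ≤ cyc (A.φ (J.val + 1)) + 3 := by
  rw [A.φ_succ J.val J.isLt]
  exact cyc_add_edge_le _ _ _ _ _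

theorem cyc_stage_good [Finite D] {J : Fin (N + 1)} (h : A.Good J) :
    cyc (A.φ J.val) ≤ cyc (A.φ (J.val + 1)) + 1 := by
  rw [A.φ_succ J.val J.isLt]
  have n1 := A.notArc_α1 (A.notArc_cz J)
  have n2 := A.notArc_α1 (A.notArc_cy J)
  refine cyc_add_edge_le_of_sameCycle (fun h => A.cz_ne_cy _ _ (A.α1.injective h)) (n1 _).1
    (n1 _).2 (n2 _).1 (n2 _).2 (by simp) ?_ ?_ h
  · rw [φ_apply, B_fix_z (le_refl _), α1_z, T_fix_z A (le_refl _), σ1_z]
  · rw [φ_apply, B_fix_y (le_refl _), α1_y, T_fix_y A (le_refl _), σ1_y]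

theorem cyc_total [Finite D] (Bad : Finset (Fin (N + 1))) (hB : ∀ J ∉ Bad, A.Good J) :
    cyc (A.φ 0) ≤ cyc (A.rot' * A.opp') + (N + 1) + 2 * Bad.card := by
  have h := seq_bound (N + 1) (fun j => cyc (A.φ j)) Bad (fun J => A.cyc_stage J)
    (fun J hJ => A.cyc_stage_good (hB J hJ))
  rw [← φ_last]
  exact h

theorem cyc_faces [Finite D] (Bad : Finset (Fin (N + 1))) (hB : ∀ J ∉ Bad, A.Good J) :
    cyc (A.σ * A.α) + (N + 1) ≤ cyc (A.rot' * A.opp') + 2 * Bad.card := by
  have h1 := A.cyc_φ0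
  have h2 := A.cyc_total Bad hB
  omega

/-! ### Walking along faces -/

/-- A step along a face of the old map which survives until the `j`-th segment is added. -/
def Step (j : ℕ) (e e' : D) : Prop :=
  e' = A.σ (A.α e) ∧ A.α e ≠ A.s0 ∧ A.α e ≠ A.s1 ∧
    ∀ i : Fin N, i.val < j → e ≠ A.d i ∧ e ≠ A.α (A.d i)

theorem sameCycle_of_step {j : ℕ} {e e' : D} (h : A.Step j e e') :
    SameCycle (A.φ j) (old e) (old e') := by
  obtain ⟨rfl, h0, h1, h2⟩ := h
  have one : ∀ x : Om D N, SameCycle (A.φ j) x (A.φ j x) := fun x =>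
    sameCycle_apply_right.2 (SameCycle.refl _ _)
  by_cases hd : ∃ i, e = A.d i
  · obtain ⟨i, rfl⟩ := hd
    have hi : j ≤ i.val := by
      by_contra hlt
      exact (h2 i (by omega)).1 rfl
    have e1 : A.φ j (old (A.d i)) = xh i := by
      rw [φ_apply, B_notArc (notArc_old _), α1_d, T_fix_xt A hi, σ1_xt]
    have e2 : A.φ j (xh i) = old (A.σ (A.α (A.d i))) := by
      rw [φ_apply, B_notArc (notArc_xh _), α1_xh, T_old A h0 h1, σ1_old]
    have s1 := one (old (A.d i))
    rw [e1] at s1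
    have s2 := one (xh i)
    rw [e2] at s2
    exact s1.trans s2
  by_cases ha : ∃ i, e = A.α (A.d i)
  · obtain ⟨i, rfl⟩ := ha
    have hi : j ≤ i.val := by
      by_contra hlt
      exact (h2 i (by omega)).2 rfl
    have e1 : A.φ j (old (A.α (A.d i))) = xt i := by
      rw [φ_apply, B_notArc (notArc_old _), α1_αd, T_fix_xh A (by omega), σ1_xh]
    have e2 : A.φ j (xt i) = old (A.σ (A.α (A.α (A.d i)))) := by
      rw [A.hα] at h0 h1
      rw [φ_apply, B_notArc (notArc_xt _), α1_xt, T_old A h0 h1, σ1_old, A.hα]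
    have s1 := one (old (A.α (A.d i)))
    rw [e1] at s1
    have s2 := one (xt i)
    rw [e2] at s2
    exact s1.trans s2
  · push Not at hd ha
    have e1 : A.φ j (old e) = old (A.σ (A.α e)) := by
      rw [φ_apply, B_notArc (notArc_old _), α1_old A hd ha, T_old A h0 h1, σ1_old]
    have s1 := one (old e)
    rwa [e1] at s1

theorem sameCycle_of_steps {j : ℕ} {e e' : D} (h : Relation.ReflTransGen (A.Step j) e e') :
    SameCycle (A.φ j) (old e) (old e') := by
  induction h with
  | refl => exact SameCycle.refl _ _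
  | tail _ h ih => exact ih.trans (A.sameCycle_of_step h)

/-- The first segment is good if the first crossing is reached along the face. -/
theorem good_zero {i : Fin N} (hi : i.val = 0)
    (h : Relation.ReflTransGen (A.Step 0) (A.σ A.s0) (A.d i)) : A.Good 0 := by
  have one : ∀ x : Om D N, SameCycle (A.φ 0) x (A.φ 0 x) := fun x =>
    sameCycle_apply_right.2 (SameCycle.refl _ _)
  have e0 : (0 : Fin (N + 1)) = i.castSucc := by
    apply Fin.ext; rw [Fin.val_castSucc, hi]; rfl
  have e1 : A.cy 0 = xt i := by rw [e0, cy_castSucc]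
  have e2 : A.φ 0 (A.α1 (old A.s0)) = old (A.σ A.s0) := by
    have : A.φ 0 (A.α1 (old A.s0)) = A.σ1 (A.α1 (A.α1 (old A.s0))) := rfl
    rw [this, α1_α1, σ1_old]
  unfold Good
  rw [e1, cz_zero, α1_xt]
  have s1 := one (A.α1 (old A.s0))
  rw [e2] at s1
  exact s1.trans (A.sameCycle_of_steps h)

/-- A middle segment is good if the next crossing is reached along the face. -/
theorem good_succ {i k : Fin N} (hik : k.val = i.val + 1)
    (h : Relation.ReflTransGen (A.Step k.val) (A.σ (A.d i)) (A.d k)) : A.Good k.castSucc := by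
  have one : ∀ x : Om D N, SameCycle (A.φ k.val) x (A.φ k.val x) := fun x =>
    sameCycle_apply_right.2 (SameCycle.refl _ _)
  have e0 : k.castSucc = i.succ := by
    apply Fin.ext; rw [Fin.val_castSucc, Fin.val_succ, hik]
  have e1 : A.cz k.castSucc = xh i := by rw [e0, cz_succ]
  have e2 : A.φ k.val (old (A.α (A.d i))) = xt i := by
    rw [φ_apply, B_notArc (notArc_old _), α1_αd, T_fix_xh A (by omega), σ1_xh]
  have e3 : A.φ k.val (xt i) = old (A.σ (A.d i)) := by
    rw [φ_apply, B_notArc (notArc_xt _), α1_xt, T_old A (A.s0d i).symm (A.s1d i).symm, σ1_old]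
  unfold Good
  rw [e1, cy_castSucc, α1_xt, α1_xh, Fin.val_castSucc]
  have s1 := one (old (A.α (A.d i)))
  rw [e2] at s1
  have s2 := one (xt i)
  rw [e3] at s2
  exact (s1.trans s2).trans (A.sameCycle_of_steps h)

end ArcData

end Pool.Agent.Work.MP_2bb1d3_co_h93
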