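import Pool.Agent.Work.MP_2bb1d3_co_h93.Main

/-! Every finite graph can be thrackled; the bounds for `J`. -/

set_option autoImplicit false

namespace Pool.Agent.Work.MP_2bb1d3_co_h93

open Equiv Equiv.Perm Relation

variable {V : Type}

/-- The thrackle of a graph without edges. -/
def emptyThrackle (V : Type) [Finite V] : Thrackle (⊥ : SimpleGraph V) where
  D := V
  finite := inferInstance
  rot := 1
  opp := 1
  src := some
  lab := fun v => (v, v)
  mark := id
  opp_opp := fun _ => rfl
  lab_opp := fun _ => rfl
  lab_adj := fun d => Or.inl ⟨d, rfl⟩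
  mark_src := fun _ => rfl
  mark_lab := fun _ => rfl
  mark_opp := fun _ => rfl
  src_rot := fun _ => rfl
  src_lab := fun d v h => Option.some.inj h
  vertex := fun d v h => by rw [Option.some.inj h]; exact SameCycle.refl _ _
  start := fun x y h => absurd h (by simp)
  cross_four := fun d h => absurd h (by simp)
  cross_lab := fun d h => absurd h (by simp)
  cross_disj := fun d h => absurd h (by simp)
  trace := fun d => ⟨0, by simp⟩
  once := fun x y z w h => absurd h (by simp)

theorem cyc_one (D : Type) : cyc (1 : Perm D) = Nat.card D := by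
  unfold cyc
  refine Nat.card_congr (Equiv.ofBijective (fun d => Quotient.mk _ d) ⟨?_, ?_⟩).symm
  · intro a b h
    have h1 : SameCycle (1 : Perm D) a b := Quotient.exact h
    obtain ⟨i, hi⟩ := h1
    rw [one_zpow] at hi
    exact hi
  · intro q
    induction q using Quotient.inductionOn with
    | h a => exact ⟨a, rfl⟩

theorem canThrackle_bot (V : Type) [Finite V] : CanThrackle (⊥ : SimpleGraph V) 0 := by
  refine ⟨emptyThrackle V, ?_⟩
  unfold Thrackle.OnSurface Thrackle.points Thrackle.faces Thrackle.segments
  have h1 : (emptyThrackle V).components ≤ Nat.card V := by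
    unfold Thrackle.components
    refine Nat.card_le_card_of_surjective (fun v : V => Quotient.mk _ v) ?_
    intro q
    induction q using Quotient.inductionOn with
    | h a => exact ⟨a, rfl⟩
  change 2 * (emptyThrackle V).components + (Nat.card V - Nat.card V) / 2 ≤
    2 * 0 + cyc (1 : Perm V) + cyc ((1 : Perm V) * (1 : Perm V))
  rw [mul_one, cyc_one]
  omega

/-- Every finite graph can be thrackled. -/
theorem exists_canThrackle [Finite V] (G : SimpleGraph V) : ∃ g, CanThrackle G g := by
  classical
  have key : ∀ n, ∀ G : SimpleGraph V, G.edgeSet.ncard = n → ∃ g, CanThrackle G g := by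
    intro n
    induction n with
    | zero =>
      intro G hG
      have h1 : G.edgeSet = ∅ := (Set.ncard_eq_zero (Set.toFinite _)).1 hG
      have h2 : G = ⊥ := SimpleGraph.edgeSet_eq_empty.1 h1
      subst h2
      exact ⟨0, canThrackle_bot V⟩
    | succ n ih =>
      intro G hG
      have h1 : G.edgeSet.Nonempty := by
        rw [← Set.ncard_pos (Set.toFinite _)]; omega
      obtain ⟨e, he⟩ := h1
      induction e with
      | h u v =>
        have huv : G.Adj u v := he
        set H := G.deleteEdges {s(u, v)} with hH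
        have h2 : H.edgeSet = G.edgeSet \ {s(u, v)} := SimpleGraph.edgeSet_deleteEdges _
        have h3 : H.edgeSet.ncard = n := by
          rw [h2, Set.ncard_sdiff_singleton_of_mem he, hG]; rfl
        obtain ⟨g, hg⟩ := ih H h3
        have h4 : ¬ H.Adj u v := by
          rw [hH, SimpleGraph.deleteEdges_adj]
          exact fun h => h.2 rfl
        have h5 : H ⊔ SimpleGraph.edge u v = G := by
          ext a b
          rw [SimpleGraph.sup_adj, SimpleGraph.edge_adj, hH, SimpleGraph.deleteEdges_adj,
            Set.mem_singleton_iff, Sym2.eq_iff]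
          constructor
          · rintro (h | ⟨h | h, -⟩)
            · exact h.1
            · rw [h.1, h.2]; exact huv
            · rw [h.1, h.2]; exact huv.symm
          · intro h
            by_cases h6 : (a = u ∧ b = v) ∨ (a = v ∧ b = u)
            · exact Or.inr ⟨h6, h.ne⟩
            · exact Or.inl ⟨h, h6⟩
        have h6 := hg.add_edge huv.ne h4
        rw [h5] at h6
        exact ⟨_, h6⟩
  exact key _ G rfl

theorem canThrackle_tg [Finite V] (G : SimpleGraph V) : CanThrackle G (tg G) :=
  Nat.sInf_mem (s := {g | CanThrackle G g}) (exists_canThrackle G)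

theorem tg_add_edge [Finite V] (G : SimpleGraph V) {u v : V} (huv : u ≠ v)
    (hna : ¬ G.Adj u v) :
    tg (G ⊔ SimpleGraph.edge u v) ≤
      tg G + min (min (G.neighborSet u).ncard (G.neighborSet v).ncard)
        (G.edgeSet.ncard - ((G.neighborSet u).ncard + (G.neighborSet v).ncard)) + 1 :=
  Nat.sInf_le ((canThrackle_tg G).add_edge huv hna)

theorem degree_le [Finite V] (G : SimpleGraph V) {u v : V} (huv : u ≠ v) (hna : ¬ G.Adj u v) :
    (G.neighborSet u).ncard ≤ Nat.card V - 2 := by
  have h1 : G.neighborSet u ⊆ (Set.univ : Set V) \ {u, v} := by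
    intro z hz
    refine ⟨Set.mem_univ _, ?_⟩
    rintro (rfl | h)
    · exact hz.ne rfl
    · rw [Set.mem_singleton_iff] at h
      subst h
      exact hna hz
  have h2 := Set.ncard_le_ncard h1 (Set.toFinite _)
  rw [Set.ncard_sdiff (Set.subset_univ _) (Set.toFinite _), Set.ncard_univ,
    Set.ncard_pair huv] at h2
  exact h2

theorem degree_add_le [Finite V] (G : SimpleGraph V) {u v : V} (huv : u ≠ v)
    (hna : ¬ G.Adj u v) :
    (G.neighborSet u).ncard + (G.neighborSet v).ncard ≤ G.edgeSet.ncard := by
  have inj : ∀ w : V, Function.Injective fun z => s(w, z) := by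
    intro w a b h
    exact Sym2.congr_right.1 h
  rw [← Set.ncard_image_of_injective _ (inj u), ← Set.ncard_image_of_injective _ (inj v),
    ← Set.ncard_union_eq _ (Set.toFinite _) (Set.toFinite _)]
  · refine Set.ncard_le_ncard ?_ (Set.toFinite _)
    rintro e (⟨z, hz, rfl⟩ | ⟨z, hz, rfl⟩)
    · exact hz
    · exact hz
  · rw [Set.disjoint_left]
    rintro e ⟨z, hz, rfl⟩ ⟨z', hz', h⟩
    rw [Sym2.eq_iff] at h
    rcases h with ⟨h, -⟩ | ⟨h, -⟩
    · exact huv h.symm
    · subst h
      exact hna hz

theorem J_le (n m : ℕ) : J n m ≤ min (n - 2) (m / 3) + 1 := by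
  unfold J
  refine csSup_le' ?_
  rintro t ⟨G, u, v, hm, huv, hna, rfl⟩
  have h1 := tg_add_edge G huv hna
  have h2 := degree_le G huv hna
  have h3 := degree_add_le G huv hna
  rw [Nat.card_fin] at h2
  rw [hm] at h3
  omega

theorem J_small (c : ℝ) (hc : 0 < c) :
    ∃ n₀ : ℕ, ∀ n ≥ n₀, ∀ m, (J n m : ℝ) < c * (n : ℝ) ^ 2 := by
  obtain ⟨k, hk⟩ := exists_nat_gt (1 / c)
  refine ⟨k + 2, fun n hn m => ?_⟩
  have h1 : J n m ≤ n := by
    have := J_le n m
    omega
  have h2 : (J n m : ℝ) ≤ n := by exact_mod_cast h1
  have h3 : (k : ℝ) + 2 ≤ n := by exact_mod_cast hn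
  have h4 : 1 < c * n := by
    rw [div_lt_iff₀ hc] at hk
    nlinarith
  have h5 : (0 : ℝ) < n := by
    have : (0 : ℝ) ≤ k := Nat.cast_nonneg k
    linarith
  nlinarith

end Pool.Agent.Work.MP_2bb1d3_co_h93
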