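import Pool.Agent.Work.MP_2bb1d3_co_h93.Extend

/-! The number of components when one end of the new edge is isolated, and the length of a
route. -/

set_option autoImplicit false

namespace Pool.Agent.Work.MP_2bb1d3_co_h93

open Equiv Equiv.Perm Om Relation

variable {V : Type} {G : SimpleGraph V}

namespace Route

variable {T : Thrackle G} {u v : V} {N : ℕ} (R : Route T u v N) (huv : u ≠ v)

theorem eq_mark_of_iso (T : Thrackle G) (hu : ∀ z, ¬ G.Adj u z) {e : T.D}
    (h : T.src e = some u) : e = T.mark u := by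
  rcases T.lab_adj e with ⟨s, rfl⟩ | h1
  · rw [T.mark_src] at h
    rw [Option.some.inj h]
  · have h2 := T.src_lab _ _ h
    rw [h2] at h1
    exact absurd h1 (hu _)

theorem iso_class (T : Thrackle G) (hu : ∀ z, ¬ G.Adj u z) {a b : T.D}
    (h : EqvGen (fun d e : T.D => e = T.rot d ∨ e = T.opp d) a b) :
    a = T.mark u ↔ b = T.mark u := by
  induction h with
  | rel a b h =>
    rcases h with rfl | rfl
    · constructor
      · rintro rfl
        exact eq_mark_of_iso T hu (by rw [T.src_rot, T.mark_src])
      · intro h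
        have h1 := T.src_rot a
        rw [h, T.mark_src] at h1
        exact eq_mark_of_iso T hu h1.symm
    · constructor
      · rintro rfl
        exact T.mark_opp u
      · intro h
        rw [← T.opp_opp a, h, T.mark_opp]
  | refl a => exact Iff.rfl
  | symm a b _ ih => exact ih.symm
  | trans a b c _ _ ih1 ih2 => exact ih1.trans ih2

/-- The two ends are joined in the new map. -/
theorem joined (hna : ¬ G.Adj u v) :
    EqvGen (fun d e : (R.thrackle huv hna).D => e = (R.thrackle huv hna).rot d ∨
      e = (R.thrackle huv hna).opp d) (old (T.mark u)) (old (T.mark v)) := by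
  set A := R.arc huv with hA
  set r' : Om T.D N → Om T.D N → Prop := fun d e => e = A.rot' d ∨ e = A.opp' d with hr'
  change EqvGen r' _ _
  have := T.finite
  have : Finite (Om T.D N) := inferInstance
  have st : ∀ e, EqvGen r' e (A.rot' e) := fun e => EqvGen.rel _ _ (Or.inl rfl)
  have st2 : ∀ e, EqvGen r' e (A.opp' e) := fun e => EqvGen.rel _ _ (Or.inr rfl)
  have hcyc : ∀ a b : Om T.D N, SameCycle A.rot' a b → EqvGen r' a b := by
    intro a b h
    obtain ⟨n, rfl⟩ := h.exists_nat_pow_eq
    induction n with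
    | zero => exact EqvGen.refl _
    | succ n ih =>
      rw [pow_succ', Perm.mul_apply]
      exact EqvGen.trans _ _ _ (ih (SameCycle.refl _ _ |>.trans
        (sameCycle_pow_right.2 (SameCycle.refl _ _)))) (st _)
  have hzy : ∀ j : Fin (N + 1), EqvGen r' (z j) (y j) := by
    intro j
    have s := st2 (z j)
    rwa [A.opp'_z] at s
  have hyz : ∀ i : Fin N, EqvGen r' (y i.castSucc) (z i.succ) := by
    intro i
    have s1 := st (y i.castSucc)
    rw [A.rot'_yc] at s1
    have s2 := st (xh i)
    rw [A.rot'_xh] at s2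
    exact EqvGen.trans _ _ _ s1 s2
  have hall : ∀ n, ∀ j : Fin (N + 1), j.val = n → EqvGen r' (z 0) (z j) := by
    intro n
    induction n with
    | zero =>
      intro j hj
      have : j = 0 := Fin.ext hj
      rw [this]; exact EqvGen.refl _
    | succ n ih =>
      intro j hj
      have hj' : j = (⟨n, by have := j.isLt; omega⟩ : Fin N).succ := Fin.ext (by simp [hj])
      have h1 := ih (⟨n, by have := j.isLt; omega⟩ : Fin N).castSucc (by simp)
      rw [hj']
      exact EqvGen.trans _ _ _ h1 (EqvGen.trans _ _ _ (hzy _) (hyz _))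
  have hu : EqvGen r' (old (T.mark u)) (z 0) :=
    hcyc _ _ ((R.vertex' huv (z 0) u (src'_z0)))
  have hv : EqvGen r' (old (T.mark v)) (y (Fin.last N)) :=
    hcyc _ _ ((R.vertex' huv (y (Fin.last N)) v (src'_yl)))
  exact EqvGen.trans _ _ _ hu (EqvGen.trans _ _ _ (hall _ (Fin.last N) rfl)
    (EqvGen.trans _ _ _ (hzy _) (EqvGen.symm _ _ hv)))

theorem components_lt (hna : ¬ G.Adj u v) (hu : ∀ z, ¬ G.Adj u z) :
    (R.thrackle huv hna).components + 1 ≤ T.components := by
  classical
  have := T.finite
  obtain ⟨f, hf, hfe⟩ := R.exists_map huv hna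
  have h1 := hfe (T.mark u)
  have h2 := hfe (T.mark v)
  have h3 := Quotient.sound (s := EqvGen.setoid _) (R.joined huv hna)
  have h4 : ¬ Function.Injective f := by
    intro hinj
    have h5 := hinj ((h1.trans h3).trans h2.symm)
    have h6 := (iso_class T hu (Quotient.exact h5)).1 rfl
    have h7 := T.mark_src v
    rw [h6, T.mark_src] at h7
    exact huv (Option.some.inj h7)
  have : Fintype (Quotient (EqvGen.setoid fun d e : T.D => e = T.rot d ∨ e = T.opp d)) :=
    Fintype.ofFinite _
  have : Fintype (Quotient (EqvGen.setoid fun d e : (R.thrackle huv hna).D =>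
        e = (R.thrackle huv hna).rot d ∨ e = (R.thrackle huv hna).opp d)) := by
    have := (R.thrackle huv hna).finite
    exact Fintype.ofFinite _
  have h8 := Fintype.card_lt_of_surjective_not_injective f hf h4
  rw [← Nat.card_eq_fintype_card, ← Nat.card_eq_fintype_card] at h8
  exact h8

theorem onSurface_iso (hna : ¬ G.Adj u v) (hu : ∀ z, ¬ G.Adj u z) {g : ℕ}
    (hg : T.OnSurface g) (Bad : Finset (Fin (N + 1))) {c : ℕ} (hc : Bad.card ≤ c + 1)
    (hB : ∀ J ∉ Bad, (R.arc huv).Good J) :
    (R.thrackle huv hna).OnSurface (g + c) := by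
  have := T.finite
  have h1 := R.components_lt huv hna hu
  have h2 := (R.arc huv).cyc_rot'
  have h3 := (R.arc huv).cyc_faces Bad hB
  have h4 : Nat.card (Om T.D N) = Nat.card T.D + (N * 2 + (N + 1) * 2) := by
    rw [Nat.card_sum, Nat.card_sum, Nat.card_prod, Nat.card_prod, Nat.card_fin, Nat.card_fin,
      Nat.card_eq_fintype_card (α := Bool), Fintype.card_bool]
  unfold Thrackle.OnSurface Thrackle.points Thrackle.faces Thrackle.segments at *
  change 2 * (R.thrackle huv hna).components + (Nat.card (Om T.D N) - Nat.card V) / 2 ≤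
    2 * (g + c) + cyc (R.arc huv).rot' + cyc ((R.arc huv).rot' * (R.arc huv).opp')
  rw [h4]
  change cyc T.rot + N ≤ _ at h2
  change cyc (T.rot * T.opp) + (N + 1) ≤ _ at h3
  omega

include R huv in
/-- The length of a route is at most the number of the edges away from `u` and `v`. -/
theorem length_add_le [Finite V] (hna : ¬ G.Adj u v) :
    N + ((G.neighborSet u).ncard + (G.neighborSet v).ncard) ≤ G.edgeSet.ncard := by
  have inj : ∀ w : V, Function.Injective fun z => s(w, z) := by
    intro w a b h
    exact Sym2.congr_right.1 h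
  set A : Set (Sym2 V) := Set.range fun i : Fin N => s((T.lab (R.d i)).1, (T.lab (R.d i)).2)
    with hA
  set B : Set (Sym2 V) := (fun z => s(u, z)) '' G.neighborSet u with hB
  set C : Set (Sym2 V) := (fun z => s(v, z)) '' G.neighborSet v with hC
  have hAc : A.ncard = N := by
    rw [hA, ← Set.image_univ, Set.ncard_image_of_injective, Set.ncard_univ, Nat.card_fin]
    intro i j h
    change s(_, _) = s(_, _) at h
    rw [Sym2.eq_iff] at h
    rcases h with h | h
    · exact R.lab_eq (Prod.ext h.1 h.2)
    · exact R.lab_eq_swap (Prod.ext h.1 h.2)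
  have hBc : B.ncard = (G.neighborSet u).ncard := Set.ncard_image_of_injective _ (inj u)
  have hCc : C.ncard = (G.neighborSet v).ncard := Set.ncard_image_of_injective _ (inj v)
  have hBC : Disjoint B C := by
    rw [Set.disjoint_left]
    rintro e ⟨z, hz, rfl⟩ ⟨z', hz', h⟩
    rw [Sym2.eq_iff] at h
    rcases h with ⟨h, -⟩ | ⟨h, -⟩
    · exact huv h.symm
    · subst h
      exact hna hz
  have hABC : Disjoint A (B ∪ C) := by
    rw [Set.disjoint_left]
    rintro e ⟨i, rfl⟩ h
    have hd := R.disj i
    rcases h with ⟨z, hz, h⟩ | ⟨z, hz, h⟩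
    · rw [Sym2.eq_iff] at h
      rcases h with ⟨h, -⟩ | ⟨h, -⟩
      · exact hd.1 h.symm
      · exact hd.2.2.1 h.symm
    · rw [Sym2.eq_iff] at h
      rcases h with ⟨h, -⟩ | ⟨h, -⟩
      · exact hd.2.1 h.symm
      · exact hd.2.2.2 h.symm
  have hsub : A ∪ (B ∪ C) ⊆ G.edgeSet := by
    rintro e (⟨i, rfl⟩ | ⟨z, hz, rfl⟩ | ⟨z, hz, rfl⟩)
    · exact R.adj i
    · exact hz
    · exact hz
  have h1 := Set.ncard_le_ncard hsub (Set.toFinite _)
  rw [Set.ncard_union_eq hABC (Set.toFinite _) (Set.toFinite _),
    Set.ncard_union_eq hBC (Set.toFinite _) (Set.toFinite _), hAc, hBc, hCc] at h1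
  exact h1

end Route

end Pool.Agent.Work.MP_2bb1d3_co_h93
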