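import Pool.Agent.Work.MP_2bb1d3_co_h93.Defs

/-! Number of cycles of a permutation of a finite set; effect of a transposition. -/

set_option autoImplicit false

namespace Pool.Agent.Work.MP_2bb1d3_co_h93

open Equiv Equiv.Perm


variable {D : Type}

/-- If every step of `π` stays in a cycle of `ρ`, then cycles of `π` are contained in cycles of
`ρ`. -/
theorem sameCycle_mono [Finite D] {π ρ : Perm D} (h : ∀ e, SameCycle ρ e (π e)) {x y : D}
    (hxy : SameCycle π x y) : SameCycle ρ x y := by
  have hn : ∀ (n : ℕ) (x : D), SameCycle ρ x ((π ^ n) x) := by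
    intro n
    induction n with
    | zero => intro x; exact SameCycle.refl _ _
    | succ n ih =>
      intro x
      rw [pow_succ', Perm.mul_apply]
      exact (ih x).trans (h _)
  obtain ⟨n, rfl⟩ := hxy.exists_nat_pow_eq
  exact hn n x

theorem cyc_le_of_step [Finite D] {π ρ : Perm D} (h : ∀ e, SameCycle ρ e (π e)) :
    cyc ρ ≤ cyc π := by
  classical
  unfold cyc
  let f : Quotient (SameCycle.setoid π) → Quotient (SameCycle.setoid ρ) :=
    Quotient.map' id (fun x y hxy => sameCycle_mono h hxy)
  refine Nat.card_le_card_of_surjective f ?_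
  intro q
  induction q using Quotient.inductionOn with
  | h x => exact ⟨Quotient.mk _ x, rfl⟩


/-- The cycles of `π * swap a b` are contained in the classes of `π` with those of `a`, `b`
merged. -/
theorem sameCycle_mul_swap [Finite D] [DecidableEq D] {π : Perm D} {a b x y : D}
    (h : SameCycle (π * swap a b) x y) :
    SameCycle π x y ∨ (SameCycle π x a ∧ SameCycle π b y) ∨
      (SameCycle π x b ∧ SameCycle π a y) := by
  have step : ∀ e, SameCycle π e ((π * swap a b) e) ∨
      (SameCycle π e a ∧ SameCycle π b ((π * swap a b) e)) ∨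
      (SameCycle π e b ∧ SameCycle π a ((π * swap a b) e)) := by
    intro e
    by_cases ha : e = a
    · subst ha
      right; left
      rw [Perm.mul_apply, swap_apply_left]
      exact ⟨SameCycle.refl _ _, sameCycle_apply_right.2 (SameCycle.refl _ _)⟩
    · by_cases hb : e = b
      · subst hb
        right; right
        rw [Perm.mul_apply, swap_apply_right]
        exact ⟨SameCycle.refl _ _, sameCycle_apply_right.2 (SameCycle.refl _ _)⟩
      · left
        rw [Perm.mul_apply, swap_apply_of_ne_of_ne ha hb]
        exact sameCycle_apply_right.2 (SameCycle.refl _ _)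
  have hn : ∀ (n : ℕ) (x : D), SameCycle π x (((π * swap a b) ^ n) x) ∨
      (SameCycle π x a ∧ SameCycle π b (((π * swap a b) ^ n) x)) ∨
      (SameCycle π x b ∧ SameCycle π a (((π * swap a b) ^ n) x)) := by
    intro n
    induction n with
    | zero => intro x; left; exact SameCycle.refl _ _
    | succ n ih =>
      intro x
      rw [pow_succ', Perm.mul_apply]
      generalize hz : ((π * swap a b) ^ n) x = z at *
      have h1 := ih x
      rw [hz] at h1
      have h2 := step z
      rcases h1 with h1 | ⟨h1, h1'⟩ | ⟨h1, h1'⟩ <;> rcases h2 with h2 | ⟨h2, h2'⟩ | ⟨h2, h2'⟩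
      · exact Or.inl (h1.trans h2)
      · exact Or.inr (Or.inl ⟨h1.trans h2, h2'⟩)
      · exact Or.inr (Or.inr ⟨h1.trans h2, h2'⟩)
      · exact Or.inr (Or.inl ⟨h1, h1'.trans h2⟩)
      · exact Or.inr (Or.inl ⟨h1, h2'⟩)
      · exact Or.inl (h1.trans h2')
      · exact Or.inr (Or.inr ⟨h1, h1'.trans h2⟩)
      · exact Or.inl (h1.trans h2')
      · exact Or.inr (Or.inr ⟨h1, h2'⟩)
  obtain ⟨n, rfl⟩ := h.exists_nat_pow_eq
  exact hn n x

/-- A transposition loses at most one cycle. -/
theorem cyc_le_mul_swap [Finite D] [DecidableEq D] (π : Perm D) (a b : D) :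
    cyc π ≤ cyc (π * swap a b) + 1 := by
  classical
  unfold cyc
  let g : Quotient (SameCycle.setoid π) → Option (Quotient (SameCycle.setoid (π * swap a b))) :=
    fun q => if q = Quotient.mk _ a then none else some (Quotient.mk _ q.out)
  have hg : Function.Injective g := by
    intro q1 q2 h
    by_cases h1 : q1 = Quotient.mk _ a
    · by_cases h2 : q2 = Quotient.mk _ a
      · rw [h1, h2]
      · simp only [g, if_pos h1, if_neg h2] at h
        exact absurd h (by simp)
    · by_cases h2 : q2 = Quotient.mk _ a
      · simp only [g, if_neg h1, if_pos h2] at h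
        exact absurd h (by simp)
      · simp only [g, if_neg h1, if_neg h2, Option.some.injEq] at h
        have h3 : SameCycle (π * swap a b) q1.out q2.out := Quotient.exact h
        have e1 : Quotient.mk (SameCycle.setoid π) q1.out = q1 := Quotient.out_eq q1
        have e2 : Quotient.mk (SameCycle.setoid π) q2.out = q2 := Quotient.out_eq q2
        rcases sameCycle_mul_swap h3 with h4 | ⟨h4, -⟩ | ⟨-, h4⟩
        · rw [← e1, ← e2]
          exact Quotient.sound (s := SameCycle.setoid π) h4
        · exact absurd (by rw [← e1]; exact Quotient.sound (s := SameCycle.setoid π) h4) h1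
        · exact absurd (by rw [← e2]; exact Quotient.sound (s := SameCycle.setoid π) h4.symm) h2
  have := Nat.card_le_card_of_injective g hg
  rwa [Finite.card_option] at this

/-- A transposition of two elements of the same cycle splits it. -/
theorem not_sameCycle_mul_swap [Finite D] [DecidableEq D] {π : Perm D} {a b : D} (hab : a ≠ b)
    (h : SameCycle π a b) : ¬ SameCycle (π * swap a b) b a := by
  classical
  obtain ⟨n, hn⟩ := h.exists_nat_pow_eq
  have hn0 : 0 < n := by
    rcases Nat.eq_zero_or_pos n with h0 | h0
    · subst h0; exact absurd hn hab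
    · exact h0
  have hex : ∃ n, 0 < n ∧ (π ^ n) a = b := ⟨n, hn0, hn⟩
  set k := Nat.find hex with hk
  obtain ⟨hk0, hkb⟩ := Nat.find_spec hex
  rw [← hk] at hk0 hkb
  have hmin : ∀ i, 0 < i → i < k → (π ^ i) a ≠ b := fun i hi hik hib =>
    Nat.find_min hex hik ⟨hi, hib⟩
  have hna : ∀ i, 0 < i → i ≤ k → (π ^ i) a ≠ a := by
    intro i hi hik hia
    rcases Nat.lt_or_ge i k with hlt | hge
    · refine hmin (k - i) (by omega) (by omega) ?_
      have : (π ^ k) a = (π ^ (k - i)) ((π ^ i) a) := by
        rw [← Perm.mul_apply, ← pow_add]; congr 2; omega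
      rw [← hkb, this, hia]
    · have : i = k := by omega
      subst this
      exact hab (by rw [← hia, hkb])
  have hinv : ∀ n : ℕ, ∃ i, 0 < i ∧ i ≤ k ∧ ((π * swap a b) ^ n) b = (π ^ i) a := by
    intro n
    induction n with
    | zero => exact ⟨k, hk0, le_refl _, hkb.symm⟩
    | succ n ih =>
      obtain ⟨i, hi, hik, e⟩ := ih
      rw [pow_succ', Perm.mul_apply, e, Perm.mul_apply]
      rcases Nat.lt_or_ge i k with hlt | hge
      · refine ⟨i + 1, by omega, by omega, ?_⟩
        rw [swap_apply_of_ne_of_ne (hna i hi hik) (hmin i hi hlt), pow_succ', Perm.mul_apply]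
      · have hik' : i = k := by omega
        refine ⟨1, by omega, by omega, ?_⟩
        rw [hik', hkb, swap_apply_right, pow_one]
  intro hs
  obtain ⟨m, hm⟩ := hs.exists_nat_pow_eq
  obtain ⟨i, hi, hik, e⟩ := hinv m
  exact hna i hi hik (by rw [← e, hm])

theorem cyc_mul_swap_of_sameCycle [Finite D] [DecidableEq D] {π : Perm D} {a b : D}
    (hab : a ≠ b) (h : SameCycle π a b) : cyc π + 1 ≤ cyc (π * swap a b) := by
  classical
  unfold cyc
  have key : ∀ x y, SameCycle (π * swap a b) x y → SameCycle π x y := by
    intro x y hxy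
    rcases sameCycle_mul_swap hxy with h4 | ⟨h4, h5⟩ | ⟨h4, h5⟩
    · exact h4
    · exact (h4.trans h).trans h5
    · exact (h4.trans h.symm).trans h5
  let f : Quotient (SameCycle.setoid (π * swap a b)) → Quotient (SameCycle.setoid π) :=
    Quotient.map' id (fun x y hxy => key x y hxy)
  have hf : Function.Surjective f := by
    intro q
    induction q using Quotient.inductionOn with
    | h x => exact ⟨Quotient.mk _ x, rfl⟩
  have hni : ¬ Function.Injective f := by
    intro hi
    have h1 : f (Quotient.mk _ b) = f (Quotient.mk _ a) :=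
      Quotient.sound (s := SameCycle.setoid π) h.symm
    exact not_sameCycle_mul_swap hab h (Quotient.exact (hi h1))
  have := Fintype.ofFinite (Quotient (SameCycle.setoid (π * swap a b)))
  have := Fintype.ofFinite (Quotient (SameCycle.setoid π))
  rw [Nat.card_eq_fintype_card, Nat.card_eq_fintype_card]
  exact Fintype.card_lt_of_surjective_not_injective f hf hni


/-- A surjective map which sends steps of `ρ` into cycles of `π`. -/
theorem cyc_le_of_retract {Ω : Type} [Finite Ω] {π : Perm D} {ρ : Perm Ω} (f : Ω → D)
    (hf : Function.Surjective f) (h : ∀ e, SameCycle π (f e) (f (ρ e))) : cyc π ≤ cyc ρ := by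
  classical
  unfold cyc
  have hn : ∀ (n : ℕ) (x : Ω), SameCycle π (f x) (f ((ρ ^ n) x)) := by
    intro n
    induction n with
    | zero => intro x; exact SameCycle.refl _ _
    | succ n ih =>
      intro x
      rw [pow_succ', Perm.mul_apply]
      exact (ih x).trans (h _)
  have key : ∀ x y, SameCycle ρ x y → SameCycle π (f x) (f y) := by
    intro x y hxy
    obtain ⟨n, rfl⟩ := hxy.exists_nat_pow_eq
    exact hn n x
  let g : Quotient (SameCycle.setoid ρ) → Quotient (SameCycle.setoid π) :=
    Quotient.map' f (fun x y hxy => key x y hxy)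
  refine Nat.card_le_card_of_surjective g ?_
  intro q
  induction q using Quotient.inductionOn with
  | h x =>
    obtain ⟨w, rfl⟩ := hf x
    exact ⟨Quotient.mk _ w, rfl⟩

/-- Adding fixed points. -/
theorem cyc_sumCongr_one {X : Type} [Finite D] [Finite X] (π : Perm D) :
    cyc π + Nat.card X ≤ cyc (Equiv.Perm.sumCongr π (1 : Perm X)) := by
  classical
  unfold cyc
  have hpow : ∀ n : ℕ, ∀ x : D,
      ((Equiv.Perm.sumCongr π (1 : Perm X)) ^ n) (Sum.inl x) = Sum.inl ((π ^ n) x) := by
    intro n
    induction n with
    | zero => intro x; rfl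
    | succ n ih => intro x; rw [pow_succ', Perm.mul_apply, ih, pow_succ', Perm.mul_apply]; rfl
  have hpow2 : ∀ n : ℕ, ∀ x : X,
      ((Equiv.Perm.sumCongr π (1 : Perm X)) ^ n) (Sum.inr x) = Sum.inr x := by
    intro n
    induction n with
    | zero => intro x; rfl
    | succ n ih => intro x; rw [pow_succ', Perm.mul_apply, ih]; rfl
  let g : Quotient (SameCycle.setoid π) ⊕ X →
      Quotient (SameCycle.setoid (Equiv.Perm.sumCongr π (1 : Perm X))) :=
    fun q => q.elim (fun q => Quotient.mk _ (Sum.inl q.out)) (fun x => Quotient.mk _ (Sum.inr x))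
  have hg : Function.Injective g := by
    rintro (q1 | x1) (q2 | x2) h
    · have h3 := Quotient.exact (s := SameCycle.setoid (Equiv.Perm.sumCongr π (1 : Perm X))) h
      obtain ⟨n, hn⟩ := SameCycle.exists_nat_pow_eq h3
      rw [hpow] at hn
      have hn' := Sum.inl_injective hn
      congr 1
      rw [← Quotient.out_eq q1, ← Quotient.out_eq q2]
      exact Quotient.sound (s := SameCycle.setoid π) (show SameCycle π _ _ from ⟨n, hn'⟩)
    · have h3 := Quotient.exact (s := SameCycle.setoid (Equiv.Perm.sumCongr π (1 : Perm X))) h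
      obtain ⟨n, hn⟩ := SameCycle.exists_nat_pow_eq h3
      rw [hpow] at hn
      exact absurd hn (by simp)
    · have h3 := Quotient.exact (s := SameCycle.setoid (Equiv.Perm.sumCongr π (1 : Perm X))) h
      obtain ⟨n, hn⟩ := SameCycle.exists_nat_pow_eq h3
      rw [hpow2] at hn
      exact absurd hn (by simp)
    · have h3 := Quotient.exact (s := SameCycle.setoid (Equiv.Perm.sumCongr π (1 : Perm X))) h
      obtain ⟨n, hn⟩ := SameCycle.exists_nat_pow_eq h3
      rw [hpow2] at hn
      rw [Sum.inr_injective hn]
  have := Nat.card_le_card_of_injective g hg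
  rwa [Nat.card_sum] at this

/-- Joining two corners by a new edge: the number of faces in general. -/
theorem cyc_add_edge_le [Finite D] [DecidableEq D] (π : Perm D) (a b z y : D) :
    cyc π ≤ cyc (π * swap a z * swap b y * swap z y) + 3 := by
  have h1 := cyc_le_mul_swap π a z
  have h2 := cyc_le_mul_swap (π * swap a z) b y
  have h3 := cyc_le_mul_swap (π * swap a z * swap b y) z y
  omega

/-- Joining two corners of the same face by a new edge. -/
theorem cyc_add_edge_le_of_sameCycle [Finite D] [DecidableEq D] {π : Perm D} {a b z y : D}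
    (hab : a ≠ b) (haz : a ≠ z) (hay : a ≠ y) (hbz : b ≠ z) (hby : b ≠ y) (hzy : z ≠ y)
    (hz : π z = z) (hy : π y = y) (h : SameCycle π a b) :
    cyc π ≤ cyc (π * swap a z * swap b y * swap z y) + 1 := by
  have h1 := cyc_le_mul_swap π a z
  have h2 := cyc_le_mul_swap (π * swap a z) b y
  set ρ := π * swap a z * swap b y with hρ
  have ea : ρ a = z := by
    rw [hρ, Perm.mul_apply, Perm.mul_apply, swap_apply_of_ne_of_ne hab hay, swap_apply_left, hz]
  have eb : ρ b = y := by
    rw [hρ, Perm.mul_apply, Perm.mul_apply, swap_apply_left, swap_apply_of_ne_of_ne hay.symm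
      hzy.symm, hy]
  have ez : ρ z = π a := by
    rw [hρ, Perm.mul_apply, Perm.mul_apply, swap_apply_of_ne_of_ne hbz.symm hzy, swap_apply_right]
  have ey : ρ y = π b := by
    rw [hρ, Perm.mul_apply, Perm.mul_apply, swap_apply_right, swap_apply_of_ne_of_ne hab.symm
      hbz]
  have r1 : ∀ e, SameCycle ρ e (ρ e) := fun e => sameCycle_apply_right.2 (SameCycle.refl _ _)
  have step : ∀ e, SameCycle ρ e (π e) := by
    intro e
    by_cases h1 : e = a
    · subst h1
      have h5 := r1 e
      rw [ea] at h5
      have h6 := r1 z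
      rw [ez] at h6
      exact h5.trans h6
    by_cases h2 : e = b
    · subst h2
      have h5 := r1 e
      rw [eb] at h5
      have h6 := r1 y
      rw [ey] at h6
      exact h5.trans h6
    by_cases h3 : e = z
    · subst h3; rw [hz]
    by_cases h4 : e = y
    · subst h4; rw [hy]
    have : ρ e = π e := by
      rw [hρ, Perm.mul_apply, Perm.mul_apply, swap_apply_of_ne_of_ne h2 h4,
        swap_apply_of_ne_of_ne h1 h3]
    rw [← this]
    exact r1 e
  have hab' : SameCycle ρ a b := sameCycle_mono step h
  have hzy' : SameCycle ρ z y := by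
    have e1 : SameCycle ρ a z := by have := r1 a; rwa [ea] at this
    have e2 : SameCycle ρ b y := by have := r1 b; rwa [eb] at this
    exact (e1.symm.trans hab').trans e2
  have h3 := cyc_mul_swap_of_sameCycle hzy hzy'
  omega

end Pool.Agent.Work.MP_2bb1d3_co_h93
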