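import Mathlib

/-!
# Thrackles on surfaces as combinatorial maps

Definitions used by the statement of the hand-in for MP_2bb1d3_co.

A drawing of a graph on a closed oriented surface, in which the edges cross pairwise in single
points, is encoded by its darts (see `Thrackle`).  Cutting the edges at their crossings gives a
graph embedded in the surface, whose vertices are the vertices of `G` and the crossings, and an
embedding of a graph in an oriented surface is encoded by a rotation system.
-/

set_option autoImplicit false

namespace Pool.Agent.Work.MP_2bb1d3_co_h93

/-- The number of cycles of a permutation, fixed points included. -/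
noncomputable def cyc {D : Type} (π : Equiv.Perm D) : ℕ :=
  Nat.card (Quotient (Equiv.Perm.SameCycle.setoid π))

/-- The two pairs have no common member (the two edges have no common endpoint). -/
def Disj {V : Type} (a b : V × V) : Prop := a.1 ≠ b.1 ∧ a.1 ≠ b.2 ∧ a.2 ≠ b.1 ∧ a.2 ≠ b.2

/-- A thrackle of the graph `G` on a closed oriented surface.

The crossings cut every edge into segments.  The darts are the pairs (segment, end of the segment),
and in addition one marker for each vertex `v` of `G`, placed in some corner at `v` (so that
isolated vertices have a dart, too). -/
structure Thrackle {V : Type} (G : SimpleGraph V) where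
  /-- the darts -/
  D : Type
  finite : Finite D
  /-- the next dart, counterclockwise, starting at the same point (vertex or crossing) -/
  rot : Equiv.Perm D
  /-- the other dart of the same segment; markers are fixed -/
  opp : Equiv.Perm D
  /-- the vertex at which the dart starts, `none` if it starts at a crossing -/
  src : D → Option V
  /-- the edge to which the dart belongs, oriented in the direction of the dart; the marker of `v`
  has the label `v, v` -/
  lab : D → V × V
  /-- the marker of a vertex -/
  mark : V → D
  opp_opp : ∀ d, opp (opp d) = d
  lab_opp : ∀ d, lab (opp d) = (lab d).swap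
  lab_adj : ∀ d, (∃ v, d = mark v) ∨ G.Adj (lab d).1 (lab d).2
  mark_src : ∀ v, src (mark v) = some v
  mark_lab : ∀ v, lab (mark v) = (v, v)
  mark_opp : ∀ v, opp (mark v) = mark v
  src_rot : ∀ d, src (rot d) = src d
  /-- a dart which starts at the vertex `v` belongs to an edge at `v`, oriented away from `v` -/
  src_lab : ∀ d v, src d = some v → (lab d).1 = v
  /-- all darts which start at `v` are in one cycle of `rot` -/
  vertex : ∀ d v, src d = some v → rot.SameCycle (mark v) d
  /-- every edge `xy` starts at `x` with exactly one dart -/
  start : ∀ x y, G.Adj x y → ∃! d, src d = some x ∧ lab d = (x, y)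
  /-- four darts start at a crossing -/
  cross_four : ∀ d, src d = none → rot (rot (rot (rot d))) = d
  /-- opposite darts of a crossing belong to the same edge: the two edges cross -/
  cross_lab : ∀ d, src d = none → lab (rot (rot d)) = (lab d).swap
  /-- edges with a common endpoint do not cross -/
  cross_disj : ∀ d, src d = none → Disj (lab d) (lab (rot d))
  /-- walking back along an edge one arrives at a vertex: there are no closed curves apart from the
  edges -/
  trace : ∀ d, ∃ k : ℕ, src ((fun e => opp (rot (rot e)))^[k] d) ≠ none
  /-- two edges `xy` and `zw` without common endpoint cross exactly once -/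
  once : ∀ x y z w, G.Adj x y → G.Adj z w → Disj (x, y) (z, w) →
    ∃! d, src d = none ∧ lab d = (x, y) ∧ (lab (rot d) = (z, w) ∨ lab (rot d) = (w, z))

namespace Thrackle

variable {V : Type} {G : SimpleGraph V} (T : Thrackle G)

/-- The number of vertices and crossings. -/
noncomputable def points : ℕ := cyc T.rot

/-- The number of segments. -/
noncomputable def segments : ℕ := (Nat.card T.D - Nat.card V) / 2

/-- The number of faces: going from a dart to the opposite one and turning to the next dart follows
the boundary of a face. -/
noncomputable def faces : ℕ := cyc (T.rot * T.opp)

/-- The number of connected components of the union of the edges and the vertices. -/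
noncomputable def components : ℕ :=
  Nat.card (Quotient (Relation.EqvGen.setoid fun d e : T.D => e = T.rot d ∨ e = T.opp d))

/-- The thrackle can be drawn on the closed oriented surface of genus `g`: by Euler's formula the
sum `h` of the genera of the components is given by
`points - segments + faces = 2 * components - 2 * h`, and `h ≤ g`. -/
def OnSurface (g : ℕ) : Prop :=
  2 * T.components + T.segments ≤ 2 * g + T.points + T.faces

end Thrackle

/-- `G` can be thrackled on the closed oriented surface of genus `g`. -/
def CanThrackle {V : Type} (G : SimpleGraph V) (g : ℕ) : Prop :=
  ∃ T : Thrackle G, T.OnSurface g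

/-- The thrackle genus. -/
noncomputable def tg {V : Type} (G : SimpleGraph V) : ℕ := sInf {g | CanThrackle G g}

/-- `J(n, m)`: the maximal jump of the thrackle genus when an edge is added to a graph with `n`
vertices and `m` edges. -/
noncomputable def J (n m : ℕ) : ℕ :=
  sSup {t | ∃ (G : SimpleGraph (Fin n)) (u v : Fin n), G.edgeSet.ncard = m ∧ u ≠ v ∧
    ¬ G.Adj u v ∧ t = tg (G ⊔ SimpleGraph.edge u v) - tg G}

end Pool.Agent.Work.MP_2bb1d3_co_h93
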