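import Pool.Agent.Work.MP_2bb1d3_co_h93.Arc

/-! Adding an edge `uv` to a thrackle along a route. -/

set_option autoImplicit false

namespace Pool.Agent.Work.MP_2bb1d3_co_h93

open Equiv Equiv.Perm Om

variable {V : Type} {G : SimpleGraph V}

theorem Disj.symm {a b : V × V} (h : Disj a b) : Disj b a :=
  ⟨h.1.symm, h.2.2.1.symm, h.2.1.symm, h.2.2.2.symm⟩

theorem Disj.swap_left {a b : V × V} (h : Disj a b) : Disj a.swap b :=
  ⟨h.2.2.1, h.2.2.2, h.1, h.2.1⟩

theorem Disj.swap_right {a b : V × V} (h : Disj a b) : Disj a b.swap :=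
  ⟨h.2.1, h.1, h.2.2.2, h.2.2.1⟩

/-- A route for the new edge `uv`. -/
structure Route (T : Thrackle G) (u v : V) (N : ℕ) where
  d : Fin N → T.D
  s0 : T.D
  s1 : T.D
  src0 : T.src s0 = some u
  src1 : T.src s1 = some v
  adj : ∀ i, G.Adj (T.lab (d i)).1 (T.lab (d i)).2
  disj : ∀ i, Disj (T.lab (d i)) (u, v)
  cover : ∀ x y, G.Adj x y → Disj (x, y) (u, v) →
    ∃! i, T.lab (d i) = (x, y) ∨ T.lab (d i) = (y, x)

namespace Route

variable {T : Thrackle G} {u v : V} {N : ℕ} (R : Route T u v N)

theorem lab_eq {i j : Fin N} (h : T.lab (R.d i) = T.lab (R.d j)) : i = j := by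
  have hadj := R.adj j
  have hd := R.disj j
  obtain ⟨k, -, hk⟩ := R.cover (T.lab (R.d j)).1 (T.lab (R.d j)).2 hadj hd
  rw [hk i (Or.inl h), hk j (Or.inl rfl)]

theorem lab_eq_swap {i j : Fin N} (h : T.lab (R.d i) = (T.lab (R.d j)).swap) : i = j := by
  have hadj := R.adj j
  have hd := R.disj j
  obtain ⟨k, -, hk⟩ := R.cover (T.lab (R.d j)).1 (T.lab (R.d j)).2 hadj hd
  rw [hk i (Or.inr h), hk j (Or.inl rfl)]

theorem lab_ne_swap (i : Fin N) : T.lab (R.d i) ≠ (T.lab (R.d i)).swap := by
  intro h
  have := congrArg Prod.fst h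
  exact (R.adj i).ne this

/-- The arc of a route. -/
def arc (huv : u ≠ v) : ArcData T.D N where
  σ := T.rot
  α := T.opp
  d := R.d
  s0 := R.s0
  s1 := R.s1
  hα := T.opp_opp
  inj := fun i j h => R.lab_eq (by rw [h])
  dis := fun i j h => by
    have h1 : T.lab (R.d j) = (T.lab (R.d i)).swap := by rw [← h, T.lab_opp]
    have h2 := R.lab_eq_swap h1
    rw [h2] at h1
    exact R.lab_ne_swap _ h1
  hs := fun h => by
    have h1 := R.src0
    rw [h, R.src1] at h1
    exact huv (Option.some.inj h1).symm
  s0d := fun i h => (R.disj i).1 (by rw [← h]; exact T.src_lab _ _ R.src0)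
  s0a := fun i h => (R.disj i).2.2.1 (by
    have := T.src_lab _ _ R.src0
    rw [h, T.lab_opp] at this
    exact this)
  s1d := fun i h => (R.disj i).2.1 (by rw [← h]; exact T.src_lab _ _ R.src1)
  s1a := fun i h => (R.disj i).2.2.2 (by
    have := T.src_lab _ _ R.src1
    rw [h, T.lab_opp] at this
    exact this)

variable (huv : u ≠ v)

/-- sources in the new map -/
def src' (T : Thrackle G) (u v : V) (N : ℕ) : Om T.D N → Option V
  | Sum.inl e => T.src e
  | Sum.inr (Sum.inl _) => none
  | Sum.inr (Sum.inr (j, false)) => Fin.cases (some u) (fun _ => none) j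
  | Sum.inr (Sum.inr (j, true)) => Fin.lastCases (some v) (fun _ => none) j

/-- labels in the new map -/
def lab' : Om T.D N → V × V
  | Sum.inl e => T.lab e
  | Sum.inr (Sum.inl (i, false)) => (T.lab (R.d i)).swap
  | Sum.inr (Sum.inl (i, true)) => T.lab (R.d i)
  | Sum.inr (Sum.inr (_, false)) => (u, v)
  | Sum.inr (Sum.inr (_, true)) => (v, u)

theorem src'_old (e : T.D) : src' T u v N (old e) = T.src e := rfl
theorem src'_xt (i : Fin N) : src' T u v N (xt i) = none := rfl
theorem src'_xh (i : Fin N) : src' T u v N (xh i) = none := rfl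
theorem src'_z0 : src' T u v N (z 0) = some u := rfl
theorem src'_zs (i : Fin N) : src' T u v N (z i.succ) = none := rfl
theorem src'_yl : src' T u v N (y (Fin.last N)) = some v := by simp [src', y]
theorem src'_yc (i : Fin N) : src' T u v N (y i.castSucc) = none := by simp [src', y]

theorem lab'_old (e : T.D) : R.lab' (old e) = T.lab e := rfl
theorem lab'_xt (i : Fin N) : R.lab' (xt i) = (T.lab (R.d i)).swap := rfl
theorem lab'_xh (i : Fin N) : R.lab' (xh i) = T.lab (R.d i) := rfl
theorem lab'_z (j : Fin (N + 1)) : R.lab' (z j) = (u, v) := rfl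
theorem lab'_y (j : Fin (N + 1)) : R.lab' (y j) = (v, u) := rfl

theorem opp_opp' (e : Om T.D N) : (R.arc huv).opp' ((R.arc huv).opp' e) = e := by
  set A := R.arc huv with hA
  refine cases_on (P := fun e => A.opp' (A.opp' e) = e) e ?_ ?_ ?_ ?_ ?_
  · intro e
    by_cases h1 : ∃ i, e = A.d i
    · obtain ⟨i, rfl⟩ := h1
      rw [A.opp'_d, A.opp'_xt]
    by_cases h2 : ∃ i, e = A.α (A.d i)
    · obtain ⟨i, rfl⟩ := h2
      rw [A.opp'_αd, A.opp'_xh]
    push Not at h1 h2
    rw [A.opp'_old h1 h2, A.opp'_old, A.hα]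
    · intro i h
      exact h2 i (by rw [← h, A.hα])
    · intro i h
      exact h1 i (A.α.injective h)
  · intro i; rw [A.opp'_xt, A.opp'_d]
  · intro i; rw [A.opp'_xh, A.opp'_αd]
  · intro j; rw [A.opp'_z, A.opp'_y]
  · intro j; rw [A.opp'_y, A.opp'_z]

theorem lab_opp' (e : Om T.D N) : R.lab' ((R.arc huv).opp' e) = (R.lab' e).swap := by
  set A := R.arc huv with hA
  refine cases_on (P := fun e => R.lab' (A.opp' e) = (R.lab' e).swap) e ?_ ?_ ?_ ?_ ?_
  · intro e
    by_cases h1 : ∃ i, e = A.d i
    · obtain ⟨i, rfl⟩ := h1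
      rw [A.opp'_d]; rfl
    by_cases h2 : ∃ i, e = A.α (A.d i)
    · obtain ⟨i, rfl⟩ := h2
      rw [A.opp'_αd, lab'_xh, lab'_old]
      change _ = (T.lab (T.opp (R.d i))).swap
      rw [T.lab_opp, Prod.swap_swap]
    push Not at h1 h2
    rw [A.opp'_old h1 h2, lab'_old, lab'_old]
    exact T.lab_opp e
  · intro i; rw [A.opp'_xt, lab'_xt, lab'_old, Prod.swap_swap]; rfl
  · intro i; rw [A.opp'_xh, lab'_xh, lab'_old]; exact T.lab_opp _
  · intro j; rw [A.opp'_z, lab'_z, lab'_y]; rfl
  · intro j; rw [A.opp'_y, lab'_z, lab'_y]; rfl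

theorem src_rot' (e : Om T.D N) : src' T u v N ((R.arc huv).rot' e) = src' T u v N e := by
  set A := R.arc huv with hA
  refine cases_on (P := fun e => src' T u v N (A.rot' e) = src' T u v N e) e ?_ ?_ ?_ ?_ ?_
  · intro e
    by_cases h0 : e = A.s0
    · rw [h0, A.rot'_s0, src'_z0, src'_old]; exact R.src0.symm
    by_cases h1 : e = A.s1
    · rw [h1, A.rot'_s1, src'_yl, src'_old]; exact R.src1.symm
    rw [A.rot'_old h0 h1, src'_old, src'_old]
    exact T.src_rot e
  · intro i; rw [A.rot'_xt, src'_xt, src'_yc]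
  · intro i; rw [A.rot'_xh, src'_xh, src'_zs]
  · intro j
    induction j using Fin.cases with
    | zero => rw [A.rot'_z0, src'_z0, src'_old]; exact (T.src_rot _).trans R.src0
    | succ j => rw [A.rot'_zs, src'_zs, src'_xt]
  · intro j
    induction j using Fin.lastCases with
    | last => rw [A.rot'_yl, src'_yl, src'_old]; exact (T.src_rot _).trans R.src1
    | cast j => rw [A.rot'_yc, src'_yc, src'_xh]

/-- Old steps of the rotation survive. -/
theorem sameCycle_old (e : T.D) : SameCycle (R.arc huv).rot' (old e) (old (T.rot e)) := by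
  set A := R.arc huv with hA
  have one : ∀ x : Om T.D N, SameCycle A.rot' x (A.rot' x) := fun x =>
    sameCycle_apply_right.2 (SameCycle.refl _ _)
  by_cases h0 : e = A.s0
  · have s1 := one (old e)
    rw [h0, A.rot'_s0] at s1
    have s2 := one (z 0)
    rw [A.rot'_z0] at s2
    rw [h0]
    exact s1.trans s2
  by_cases h1 : e = A.s1
  · have s1 := one (old e)
    rw [h1, A.rot'_s1] at s1
    have s2 := one (y (Fin.last N))
    rw [A.rot'_yl] at s2
    rw [h1]
    exact s1.trans s2
  have s1 := one (old e)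
  rw [A.rot'_old h0 h1] at s1
  exact s1

theorem sameCycle_old' {e e' : T.D} (h : SameCycle T.rot e e') :
    SameCycle (R.arc huv).rot' (old e) (old e') := by
  have := T.finite
  have hn : ∀ n : ℕ, SameCycle (R.arc huv).rot' (old e) (old ((T.rot ^ n) e)) := by
    intro n
    induction n with
    | zero => exact SameCycle.refl _ _
    | succ n ih => rw [pow_succ', Perm.mul_apply]; exact ih.trans (R.sameCycle_old huv _)
  obtain ⟨n, rfl⟩ := h.exists_nat_pow_eq
  exact hn n

theorem src_none_ne {e : T.D} (h : T.src e = none) : e ≠ R.s0 ∧ e ≠ R.s1 := by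
  constructor
  · rintro rfl; rw [R.src0] at h; exact absurd h (by simp)
  · rintro rfl; rw [R.src1] at h; exact absurd h (by simp)

theorem rot'_old_none {e : T.D} (h : T.src e = none) :
    (R.arc huv).rot' (old e) = old (T.rot e) :=
  (R.arc huv).rot'_old (R.src_none_ne h).1 (R.src_none_ne h).2

theorem adj_new {x y : V} (h : G.Adj x y) : (G ⊔ SimpleGraph.edge u v).Adj x y := Or.inl h

theorem adj_cases {x y : V} (h : (G ⊔ SimpleGraph.edge u v).Adj x y) :
    G.Adj x y ∨ (x = u ∧ y = v) ∨ (x = v ∧ y = u) := by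
  rw [SimpleGraph.sup_adj, SimpleGraph.edge_adj] at h
  tauto

theorem adj_of_src_none {e : T.D} (h : T.src e = none) : G.Adj (T.lab e).1 (T.lab e).2 := by
  rcases T.lab_adj e with ⟨w, rfl⟩ | h1
  · rw [T.mark_src] at h; exact absurd h (by simp)
  · exact h1

theorem lab_ne_uv (hna : ¬ G.Adj u v) (huv : u ≠ v) (e : T.D) : T.lab e ≠ (u, v) := by
  intro h
  rcases T.lab_adj e with ⟨w, rfl⟩ | h1
  · rw [T.mark_lab, Prod.mk.injEq] at h
    exact huv (h.1.symm.trans h.2)
  · rw [h] at h1; exact hna h1

theorem lab_ne_vu (hna : ¬ G.Adj u v) (huv : u ≠ v) (e : T.D) : T.lab e ≠ (v, u) := by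
  intro h
  rcases T.lab_adj e with ⟨w, rfl⟩ | h1
  · rw [T.mark_lab, Prod.mk.injEq] at h
    exact huv (h.2.symm.trans h.1)
  · rw [h] at h1; exact hna h1.symm

/-- going back one segment -/
noncomputable def bk' (e : Om T.D N) : Om T.D N :=
  (R.arc huv).opp' ((R.arc huv).rot' ((R.arc huv).rot' e))

theorem bk'_zs (i : Fin N) : R.bk' huv (z i.succ) = z i.castSucc := by
  rw [bk', ArcData.rot'_zs, ArcData.rot'_xt, ArcData.opp'_y]

theorem bk'_yc (i : Fin N) : R.bk' huv (y i.castSucc) = y i.succ := by
  rw [bk', ArcData.rot'_yc, ArcData.rot'_xh, ArcData.opp'_z]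

theorem bk'_xt (i : Fin N) : R.bk' huv (xt i) = old (T.opp (R.d i)) := by
  rw [bk', ArcData.rot'_xt, ArcData.rot'_yc, ArcData.opp'_xh]; rfl

theorem bk'_xh (i : Fin N) : R.bk' huv (xh i) = old (R.d i) := by
  rw [bk', ArcData.rot'_xh, ArcData.rot'_zs, ArcData.opp'_xt]; rfl

theorem trace_old (k : ℕ) : ∀ e : T.D, T.src ((fun e => T.opp (T.rot (T.rot e)))^[k] e) ≠ none →
    ∃ k', src' T u v N ((R.bk' huv)^[k'] (old e)) ≠ none := by
  set A := R.arc huv with hA
  induction k with
  | zero => intro e h; exact ⟨0, h⟩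
  | succ k ih =>
    intro e h
    by_cases hs : T.src e = none
    · rw [Function.iterate_succ_apply] at h
      obtain ⟨k', hk'⟩ := ih _ h
      have hs1 : T.src (T.rot e) = none := by rw [T.src_rot, hs]
      have e1 : R.bk' huv (old e) = A.opp' (old (T.rot (T.rot e))) := by
        rw [bk', R.rot'_old_none huv hs, R.rot'_old_none huv hs1]
      by_cases h1 : ∃ i, T.rot (T.rot e) = R.d i
      · obtain ⟨i, hi⟩ := h1
        refine ⟨k' + 2, ?_⟩
        rw [Function.iterate_succ_apply, Function.iterate_succ_apply, e1, hi,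
          show A.opp' (old (R.d i)) = xt i from A.opp'_d i, bk'_xt, ← hi]
        exact hk'
      by_cases h2 : ∃ i, T.rot (T.rot e) = T.opp (R.d i)
      · obtain ⟨i, hi⟩ := h2
        refine ⟨k' + 2, ?_⟩
        rw [Function.iterate_succ_apply, Function.iterate_succ_apply, e1, hi,
          show A.opp' (old (T.opp (R.d i))) = xh i from A.opp'_αd i, bk'_xh]
        have : T.opp (T.rot (T.rot e)) = R.d i := by rw [hi, T.opp_opp]
        rw [← this]
        exact hk'
      · push Not at h1 h2
        refine ⟨k' + 1, ?_⟩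
        rw [Function.iterate_succ_apply, e1,
          show A.opp' (old (T.rot (T.rot e))) = old (T.opp (T.rot (T.rot e))) from
            A.opp'_old h1 h2]
        exact hk'
    · exact ⟨0, hs⟩

theorem trace_z (n : ℕ) : ∀ j : Fin (N + 1), j.val = n →
    ∃ k', src' T u v N ((R.bk' huv)^[k'] (z j)) ≠ none := by
  induction n with
  | zero =>
    intro j hj
    have : j = 0 := Fin.ext hj
    subst this
    exact ⟨0, by rw [Function.iterate_zero, id, src'_z0]; simp⟩
  | succ n ih =>
    intro j hj
    have hj' : j = (⟨n, by have := j.isLt; omega⟩ : Fin N).succ := Fin.ext (by simp [hj])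
    obtain ⟨k', hk'⟩ := ih (⟨n, by have := j.isLt; omega⟩ : Fin N).castSucc (by simp)
    refine ⟨k' + 1, ?_⟩
    rw [Function.iterate_succ_apply, hj', bk'_zs]
    exact hk'

theorem trace_y (n : ℕ) : ∀ j : Fin (N + 1), j.val + n = N →
    ∃ k', src' T u v N ((R.bk' huv)^[k'] (y j)) ≠ none := by
  induction n with
  | zero =>
    intro j hj
    have : j = Fin.last N := Fin.ext (by simpa using hj)
    subst this
    exact ⟨0, by rw [Function.iterate_zero, id, src'_yl]; simp⟩
  | succ n ih =>
    intro j hj
    have hj' : j = (⟨j.val, by omega⟩ : Fin N).castSucc := Fin.ext (by simp)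
    obtain ⟨k', hk'⟩ := ih (⟨j.val, by omega⟩ : Fin N).succ (by simp; omega)
    refine ⟨k' + 1, ?_⟩
    rw [Function.iterate_succ_apply, hj', bk'_yc]
    exact hk'

theorem trace' (e : Om T.D N) : ∃ k', src' T u v N ((R.bk' huv)^[k'] e) ≠ none := by
  refine cases_on (P := fun e => ∃ k', src' T u v N ((R.bk' huv)^[k'] e) ≠ none) e
    ?_ ?_ ?_ ?_ ?_
  · intro e
    obtain ⟨k, hk⟩ := T.trace e
    exact R.trace_old huv k e hk
  · intro i
    obtain ⟨k, hk⟩ := T.trace (T.opp (R.d i))
    obtain ⟨k', hk'⟩ := R.trace_old huv k _ hk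
    exact ⟨k' + 1, by rw [Function.iterate_succ_apply, bk'_xt]; exact hk'⟩
  · intro i
    obtain ⟨k, hk⟩ := T.trace (R.d i)
    obtain ⟨k', hk'⟩ := R.trace_old huv k _ hk
    exact ⟨k' + 1, by rw [Function.iterate_succ_apply, bk'_xh]; exact hk'⟩
  · intro j; exact R.trace_z huv j.val j rfl
  · intro j; exact R.trace_y huv (N - j.val) j (by have := j.isLt; omega)

theorem vertex' (e : Om T.D N) (w : V) (h : src' T u v N e = some w) :
    SameCycle (R.arc huv).rot' (old (T.mark w)) e := by
  have one : ∀ x : Om T.D N, SameCycle (R.arc huv).rot' x ((R.arc huv).rot' x) := fun x =>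
    sameCycle_apply_right.2 (SameCycle.refl _ _)
  revert h
  refine cases_on (P := fun e => src' T u v N e = some w →
    SameCycle (R.arc huv).rot' (old (T.mark w)) e) e ?_ ?_ ?_ ?_ ?_
  · intro e h
    exact R.sameCycle_old' huv (T.vertex e w h)
  · intro i h; rw [src'_xt] at h; exact absurd h (by simp)
  · intro i h; rw [src'_xh] at h; exact absurd h (by simp)
  · intro j h
    induction j using Fin.cases with
    | zero =>
      rw [src'_z0] at h
      obtain rfl := Option.some.inj h
      have s1 := one (old R.s0)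
      rw [show (R.arc huv).rot' (old R.s0) = z 0 from (R.arc huv).rot'_s0] at s1
      exact (R.sameCycle_old' huv (T.vertex _ _ R.src0)).trans s1
    | succ j => rw [src'_zs] at h; exact absurd h (by simp)
  · intro j h
    induction j using Fin.lastCases with
    | last =>
      rw [src'_yl] at h
      obtain rfl := Option.some.inj h
      have s1 := one (old R.s1)
      rw [show (R.arc huv).rot' (old R.s1) = y (Fin.last N) from (R.arc huv).rot'_s1] at s1
      exact (R.sameCycle_old' huv (T.vertex _ _ R.src1)).trans s1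
    | cast j => rw [src'_yc] at h; exact absurd h (by simp)

include huv in
theorem start' (hna : ¬ G.Adj u v) (x x' : V) (h : (G ⊔ SimpleGraph.edge u v).Adj x x') :
    ∃! e, src' T u v N e = some x ∧ R.lab' e = (x, x') := by
  rcases adj_cases h with h | ⟨rfl, rfl⟩ | ⟨rfl, rfl⟩
  · obtain ⟨e0, ⟨h1, h2⟩, h3⟩ := T.start x x' h
    refine ⟨old e0, ⟨h1, h2⟩, ?_⟩
    intro e
    refine cases_on (P := fun e => src' T u v N e = some x ∧ R.lab' e = (x, x') → e = old e0) e
      ?_ ?_ ?_ ?_ ?_
    · intro e he; rw [h3 e he]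
    · intro i he; rw [src'_xt] at he; exact absurd he.1 (by simp)
    · intro i he; rw [src'_xh] at he; exact absurd he.1 (by simp)
    · intro j he
      rw [lab'_z, Prod.mk.injEq] at he
      obtain ⟨-, rfl, rfl⟩ := he
      exact absurd h hna
    · intro j he
      rw [lab'_y, Prod.mk.injEq] at he
      obtain ⟨-, rfl, rfl⟩ := he
      exact absurd h.symm hna
  · refine ⟨z 0, ⟨src'_z0, rfl⟩, ?_⟩
    intro e
    refine cases_on (P := fun e => src' T x x' N e = some x ∧ R.lab' e = (x, x') → e = z 0) e
      ?_ ?_ ?_ ?_ ?_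
    · intro e he; exact absurd he.2 (lab_ne_uv hna huv e)
    · intro i he; rw [src'_xt] at he; exact absurd he.1 (by simp)
    · intro i he; rw [src'_xh] at he; exact absurd he.1 (by simp)
    · intro j he
      induction j using Fin.cases with
      | zero => rfl
      | succ j => rw [src'_zs] at he; exact absurd he.1 (by simp)
    · intro j he
      rw [lab'_y, Prod.mk.injEq] at he
      exact absurd he.2.2 huv
  · refine ⟨y (Fin.last N), ⟨src'_yl, rfl⟩, ?_⟩
    intro e
    refine cases_on (P := fun e => src' T x' x N e = some x ∧ R.lab' e = (x, x') →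
      e = y (Fin.last N)) e ?_ ?_ ?_ ?_ ?_
    · intro e he; exact absurd he.2 (lab_ne_vu hna huv e)
    · intro i he; rw [src'_xt] at he; exact absurd he.1 (by simp)
    · intro i he; rw [src'_xh] at he; exact absurd he.1 (by simp)
    · intro j he
      rw [lab'_z, Prod.mk.injEq] at he
      exact absurd he.2.1 huv
    · intro j he
      induction j using Fin.lastCases with
      | last => rfl
      | cast j => rw [src'_yc] at he; exact absurd he.1 (by simp)

theorem cross' (e : Om T.D N) (h : src' T u v N e = none) :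
    (R.arc huv).rot' ((R.arc huv).rot' ((R.arc huv).rot' ((R.arc huv).rot' e))) = e ∧
    R.lab' ((R.arc huv).rot' ((R.arc huv).rot' e)) = (R.lab' e).swap ∧
    Disj (R.lab' e) (R.lab' ((R.arc huv).rot' e)) := by
  revert h
  refine cases_on (P := fun e => src' T u v N e = none →
    (R.arc huv).rot' ((R.arc huv).rot' ((R.arc huv).rot' ((R.arc huv).rot' e))) = e ∧
    R.lab' ((R.arc huv).rot' ((R.arc huv).rot' e)) = (R.lab' e).swap ∧
    Disj (R.lab' e) (R.lab' ((R.arc huv).rot' e))) e ?_ ?_ ?_ ?_ ?_
  · intro e h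
    have h0 : T.src e = none := h
    have h1 : T.src (T.rot e) = none := by rw [T.src_rot, h0]
    have h2 : T.src (T.rot (T.rot e)) = none := by rw [T.src_rot, h1]
    have h3 : T.src (T.rot (T.rot (T.rot e))) = none := by rw [T.src_rot, h2]
    rw [R.rot'_old_none huv h0, R.rot'_old_none huv h1, R.rot'_old_none huv h2,
      R.rot'_old_none huv h3, T.cross_four e h0]
    exact ⟨rfl, T.cross_lab e h0, T.cross_disj e h0⟩
  · intro i _
    rw [ArcData.rot'_xt, ArcData.rot'_yc, ArcData.rot'_xh, ArcData.rot'_zs, lab'_xh, lab'_xt,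
      lab'_y, Prod.swap_swap]
    exact ⟨rfl, rfl, (R.disj i).swap_left.swap_right⟩
  · intro i _
    rw [ArcData.rot'_xh, ArcData.rot'_zs, ArcData.rot'_xt, ArcData.rot'_yc, lab'_xt, lab'_xh,
      lab'_z]
    exact ⟨rfl, rfl, R.disj i⟩
  · intro j h
    induction j using Fin.cases with
    | zero => rw [src'_z0] at h; exact absurd h (by simp)
    | succ j =>
      rw [ArcData.rot'_zs, ArcData.rot'_xt, ArcData.rot'_yc, ArcData.rot'_xh, lab'_y, lab'_z,
        lab'_xt]
      exact ⟨rfl, rfl, (R.disj j).swap_left.symm⟩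
  · intro j h
    induction j using Fin.lastCases with
    | last => rw [src'_yl] at h; exact absurd h (by simp)
    | cast j =>
      rw [ArcData.rot'_yc, ArcData.rot'_xh, ArcData.rot'_zs, ArcData.rot'_xt, lab'_y, lab'_z,
        lab'_xh]
      exact ⟨rfl, rfl, (R.disj j).swap_right.symm⟩

theorem once' (hna : ¬ G.Adj u v) (x x' w w' : V) (h : (G ⊔ SimpleGraph.edge u v).Adj x x')
    (h' : (G ⊔ SimpleGraph.edge u v).Adj w w') (hd : Disj (x, x') (w, w')) :
    ∃! e, src' T u v N e = none ∧ R.lab' e = (x, x') ∧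
      (R.lab' ((R.arc huv).rot' e) = (w, w') ∨ R.lab' ((R.arc huv).rot' e) = (w', w)) := by
  -- labels of old edges are not the new label
  have neu : ∀ {a b : V}, G.Adj a b → (u, v) ≠ (a, b) := by
    intro a b hab he
    rw [Prod.mk.injEq] at he
    obtain ⟨rfl, rfl⟩ := he
    exact hna hab
  have nev : ∀ {a b : V}, G.Adj a b → (v, u) ≠ (a, b) := by
    intro a b hab he
    rw [Prod.mk.injEq] at he
    obtain ⟨rfl, rfl⟩ := he
    exact hna hab.symm
  rcases adj_cases h with h | h
  · rcases adj_cases h' with h' | h'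
    · -- two old edges
      obtain ⟨e0, ⟨h1, h2, h3⟩, h4⟩ := T.once x x' w w' h h' hd
      refine ⟨old e0, ⟨h1, h2, ?_⟩, ?_⟩
      · rw [R.rot'_old_none huv h1]; exact h3
      · intro e
        refine cases_on (P := fun e => src' T u v N e = none ∧ R.lab' e = (x, x') ∧
          (R.lab' ((R.arc huv).rot' e) = (w, w') ∨ R.lab' ((R.arc huv).rot' e) = (w', w)) →
          e = old e0) e ?_ ?_ ?_ ?_ ?_
        · rintro e ⟨g1, g2, g3⟩
          rw [R.rot'_old_none huv g1] at g3
          rw [h4 e ⟨g1, g2, g3⟩]
        · rintro i ⟨g1, g2, g3⟩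
          rw [ArcData.rot'_xt, lab'_y] at g3
          rcases g3 with g3 | g3
          · exact absurd g3 (nev h')
          · exact absurd g3 (nev h'.symm)
        · rintro i ⟨g1, g2, g3⟩
          rw [ArcData.rot'_xh, lab'_z] at g3
          rcases g3 with g3 | g3
          · exact absurd g3 (neu h')
          · exact absurd g3 (neu h'.symm)
        · rintro j ⟨g1, g2, g3⟩
          exact absurd g2 (neu h)
        · rintro j ⟨g1, g2, g3⟩
          exact absurd g2 (nev h)
    · -- old edge and new edge
      have hd' : Disj (x, x') (u, v) := by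
        rcases h' with ⟨rfl, rfl⟩ | ⟨rfl, rfl⟩
        · exact hd
        · exact hd.swap_right
      have hw : ∀ a : V × V, (a = (u, v) ∨ a = (v, u)) → (a = (w, w') ∨ a = (w', w)) := by
        rcases h' with ⟨rfl, rfl⟩ | ⟨rfl, rfl⟩
        · exact fun a ha => ha
        · exact fun a ha => ha.symm
      have hw2 : ∀ a : V × V, (a = (w, w') ∨ a = (w', w)) → (a = (u, v) ∨ a = (v, u)) := by
        rcases h' with ⟨rfl, rfl⟩ | ⟨rfl, rfl⟩
        · exact fun a ha => ha
        · exact fun a ha => ha.symm
      obtain ⟨i, hi, hu⟩ := R.cover x x' h hd'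
      have hlab : ∀ e : T.D, T.src e = none → ¬ (T.lab (T.rot e) = (w, w') ∨
          T.lab (T.rot e) = (w', w)) := by
        intro e he h5
        rcases hw2 _ h5 with h5 | h5
        · exact lab_ne_uv hna huv _ h5
        · exact lab_ne_vu hna huv _ h5
      rcases hi with hi | hi
      · refine ⟨xh i, ⟨rfl, hi, ?_⟩, ?_⟩
        · rw [ArcData.rot'_xh, lab'_z]; exact hw _ (Or.inl rfl)
        · intro e
          refine cases_on (P := fun e => src' T u v N e = none ∧ R.lab' e = (x, x') ∧
            (R.lab' ((R.arc huv).rot' e) = (w, w') ∨ R.lab' ((R.arc huv).rot' e) = (w', w)) →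
            e = xh i) e ?_ ?_ ?_ ?_ ?_
          · rintro e ⟨g1, g2, g3⟩
            rw [R.rot'_old_none huv g1] at g3
            exact absurd g3 (hlab e g1)
          · rintro j ⟨g1, g2, g3⟩
            rw [lab'_xt] at g2
            have g4 : T.lab (R.d j) = (x', x) := by rw [← Prod.swap_swap (T.lab (R.d j)), g2]; rfl
            have g5 := hu j (Or.inr g4)
            rw [g5, hi, Prod.mk.injEq] at g4
            exact absurd g4.1 h.ne
          · rintro j ⟨g1, g2, g3⟩
            rw [lab'_xh] at g2
            rw [hu j (Or.inl g2)]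
          · rintro j ⟨g1, g2, g3⟩
            exact absurd g2 (neu h)
          · rintro j ⟨g1, g2, g3⟩
            exact absurd g2 (nev h)
      · refine ⟨xt i, ⟨rfl, by rw [lab'_xt, hi]; rfl, ?_⟩, ?_⟩
        · rw [ArcData.rot'_xt, lab'_y]; exact hw _ (Or.inr rfl)
        · intro e
          refine cases_on (P := fun e => src' T u v N e = none ∧ R.lab' e = (x, x') ∧
            (R.lab' ((R.arc huv).rot' e) = (w, w') ∨ R.lab' ((R.arc huv).rot' e) = (w', w)) →
            e = xt i) e ?_ ?_ ?_ ?_ ?_
          · rintro e ⟨g1, g2, g3⟩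
            rw [R.rot'_old_none huv g1] at g3
            exact absurd g3 (hlab e g1)
          · rintro j ⟨g1, g2, g3⟩
            rw [lab'_xt] at g2
            have g4 : T.lab (R.d j) = (x', x) := by rw [← Prod.swap_swap (T.lab (R.d j)), g2]; rfl
            rw [hu j (Or.inr g4)]
          · rintro j ⟨g1, g2, g3⟩
            rw [lab'_xh] at g2
            have g5 := hu j (Or.inl g2)
            rw [g5, hi, Prod.mk.injEq] at g2
            exact absurd g2.2 h.ne
          · rintro j ⟨g1, g2, g3⟩
            exact absurd g2 (neu h)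
          · rintro j ⟨g1, g2, g3⟩
            exact absurd g2 (nev h)
  · rcases adj_cases h' with h' | h'
    · -- new edge and old edge
      have hd' : Disj (w, w') (u, v) := by
        rcases h with ⟨rfl, rfl⟩ | ⟨rfl, rfl⟩
        · exact hd.symm
        · exact hd.symm.swap_right
      obtain ⟨i, hi, hu⟩ := R.cover w w' h' hd'
      have hadjd : ∀ j : Fin N, T.lab (R.d j) ≠ (u, v) ∧ T.lab (R.d j) ≠ (v, u) := fun j =>
        ⟨lab_ne_uv hna huv _, lab_ne_vu hna huv _⟩
      have hadjs : ∀ j : Fin N, (T.lab (R.d j)).swap ≠ (u, v) ∧ (T.lab (R.d j)).swap ≠ (v, u) := by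
        intro j
        refine ⟨fun h5 => (hadjd j).2 ?_, fun h5 => (hadjd j).1 ?_⟩
        · rw [← Prod.swap_swap (T.lab (R.d j)), h5]; rfl
        · rw [← Prod.swap_swap (T.lab (R.d j)), h5]; rfl
      rcases h with ⟨rfl, rfl⟩ | ⟨rfl, rfl⟩
      · refine ⟨z i.succ, ⟨rfl, rfl, ?_⟩, ?_⟩
        · rw [ArcData.rot'_zs, lab'_xt]
          rcases hi with hi | hi
          · right; rw [hi]; rfl
          · left; rw [hi]; rfl
        · intro e
          refine cases_on (P := fun e => src' T x x' N e = none ∧ R.lab' e = (x, x') ∧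
            (R.lab' ((R.arc huv).rot' e) = (w, w') ∨ R.lab' ((R.arc huv).rot' e) = (w', w)) →
            e = z i.succ) e ?_ ?_ ?_ ?_ ?_
          · rintro e ⟨g1, g2, g3⟩
            exact absurd g2 (lab_ne_uv hna huv e)
          · rintro j ⟨g1, g2, g3⟩
            exact absurd g2 (hadjs j).1
          · rintro j ⟨g1, g2, g3⟩
            exact absurd g2 (hadjd j).1
          · rintro j ⟨g1, g2, g3⟩
            induction j using Fin.cases with
            | zero => rw [src'_z0] at g1; exact absurd g1 (by simp)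
            | succ j =>
              rw [ArcData.rot'_zs, lab'_xt] at g3
              have g4 : T.lab (R.d j) = (w, w') ∨ T.lab (R.d j) = (w', w) := by
                rcases g3 with g3 | g3
                · right; rw [← Prod.swap_swap (T.lab (R.d j)), g3]; rfl
                · left; rw [← Prod.swap_swap (T.lab (R.d j)), g3]; rfl
              rw [hu j g4]
          · rintro j ⟨g1, g2, g3⟩
            rw [lab'_y, Prod.mk.injEq] at g2
            exact absurd g2.2 huv
      · refine ⟨y i.castSucc, ⟨src'_yc i, rfl, ?_⟩, ?_⟩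
        · rw [ArcData.rot'_yc, lab'_xh]
          exact hi
        · intro e
          refine cases_on (P := fun e => src' T x' x N e = none ∧ R.lab' e = (x, x') ∧
            (R.lab' ((R.arc huv).rot' e) = (w, w') ∨ R.lab' ((R.arc huv).rot' e) = (w', w)) →
            e = y i.castSucc) e ?_ ?_ ?_ ?_ ?_
          · rintro e ⟨g1, g2, g3⟩
            exact absurd g2 (lab_ne_vu hna huv e)
          · rintro j ⟨g1, g2, g3⟩
            exact absurd g2 (hadjs j).2
          · rintro j ⟨g1, g2, g3⟩
            exact absurd g2 (hadjd j).2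
          · rintro j ⟨g1, g2, g3⟩
            rw [lab'_z, Prod.mk.injEq] at g2
            exact absurd g2.1 huv
          · rintro j ⟨g1, g2, g3⟩
            induction j using Fin.lastCases with
            | last => rw [src'_yl] at g1; exact absurd g1 (by simp)
            | cast j =>
              rw [ArcData.rot'_yc, lab'_xh] at g3
              rw [hu j g3]
    · exfalso
      rcases h with ⟨rfl, rfl⟩ | ⟨rfl, rfl⟩ <;> rcases h' with ⟨rfl, rfl⟩ | ⟨rfl, rfl⟩
      · exact hd.1 rfl
      · exact hd.2.1 rfl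
      · exact hd.2.1 rfl
      · exact hd.1 rfl

/-- The new thrackle. -/
noncomputable def thrackle (hna : ¬ G.Adj u v) : Thrackle (G ⊔ SimpleGraph.edge u v) where
  D := Om T.D N
  finite := by
    have := T.finite
    infer_instance
  rot := (R.arc huv).rot'
  opp := (R.arc huv).opp'
  src := src' T u v N
  lab := R.lab'
  mark := fun w => old (T.mark w)
  opp_opp := R.opp_opp' huv
  lab_opp := R.lab_opp' huv
  lab_adj := by
    intro e
    refine cases_on (P := fun e => (∃ w, e = old (T.mark w)) ∨
      (G ⊔ SimpleGraph.edge u v).Adj (R.lab' e).1 (R.lab' e).2) e ?_ ?_ ?_ ?_ ?_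
    · intro e
      rcases T.lab_adj e with ⟨w, rfl⟩ | h
      · left; exact ⟨w, rfl⟩
      · right; exact Or.inl h
    · intro i; right; exact Or.inl (R.adj i).symm
    · intro i; right; exact Or.inl (R.adj i)
    · intro j; right; right
      rw [SimpleGraph.edge_adj]; exact ⟨Or.inl ⟨rfl, rfl⟩, huv⟩
    · intro j; right; right
      rw [SimpleGraph.edge_adj]; exact ⟨Or.inr ⟨rfl, rfl⟩, huv.symm⟩
  mark_src := T.mark_src
  mark_lab := T.mark_lab
  mark_opp := by
    intro w
    have h1 : ∀ i, T.mark w ≠ R.d i := by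
      intro i h
      have := R.adj i
      rw [← h, T.mark_lab] at this
      exact this.ne rfl
    have h2 : ∀ i, T.mark w ≠ T.opp (R.d i) := by
      intro i h
      have := R.adj i
      rw [← T.opp_opp (R.d i), ← h, T.mark_opp, T.mark_lab] at this
      exact this.ne rfl
    rw [show (R.arc huv).opp' (old (T.mark w)) = old (T.opp (T.mark w)) from
      (R.arc huv).opp'_old h1 h2, T.mark_opp]
  src_rot := R.src_rot' huv
  src_lab := by
    intro e w
    refine cases_on (P := fun e => src' T u v N e = some w → (R.lab' e).1 = w) e ?_ ?_ ?_ ?_ ?_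
    · intro e h; exact T.src_lab e w h
    · intro i h; rw [src'_xt] at h; exact absurd h (by simp)
    · intro i h; rw [src'_xh] at h; exact absurd h (by simp)
    · intro j h
      induction j using Fin.cases with
      | zero => rw [src'_z0] at h; exact Option.some.inj h
      | succ j => rw [src'_zs] at h; exact absurd h (by simp)
    · intro j h
      induction j using Fin.lastCases with
      | last => rw [src'_yl] at h; exact Option.some.inj h
      | cast j => rw [src'_yc] at h; exact absurd h (by simp)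
  vertex := R.vertex' huv
  start := R.start' huv hna
  cross_four := fun e h => (R.cross' huv e h).1
  cross_lab := fun e h => (R.cross' huv e h).2.1
  cross_disj := fun e h => (R.cross' huv e h).2.2
  trace := R.trace' huv
  once := R.once' huv hna

/-! ### The genus -/

/-- The old components map onto the new ones. -/
theorem exists_map (hna : ¬ G.Adj u v) :
    ∃ f : Quotient (Relation.EqvGen.setoid fun d e : T.D => e = T.rot d ∨ e = T.opp d) →
      Quotient (Relation.EqvGen.setoid fun d e : (R.thrackle huv hna).D =>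
        e = (R.thrackle huv hna).rot d ∨ e = (R.thrackle huv hna).opp d),
      Function.Surjective f ∧ ∀ e, f (Quotient.mk _ e) = Quotient.mk _ (old e) := by
  have := T.finite
  set A := R.arc huv with hA
  set r : T.D → T.D → Prop := fun d e => e = T.rot d ∨ e = T.opp d with hr
  set r' : Om T.D N → Om T.D N → Prop := fun d e => e = A.rot' d ∨ e = A.opp' d with hr'
  have st : ∀ e, Relation.EqvGen r' e (A.rot' e) := fun e =>
    Relation.EqvGen.rel _ _ (Or.inl rfl)
  have st2 : ∀ e, Relation.EqvGen r' e (A.opp' e) := fun e =>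
    Relation.EqvGen.rel _ _ (Or.inr rfl)
  have hx : ∀ i, Relation.EqvGen r' (xt i) (xh i) := by
    intro i
    have s1 := st (xt i)
    rw [A.rot'_xt] at s1
    have s2 := st (y i.castSucc)
    rw [A.rot'_yc] at s2
    exact Relation.EqvGen.trans _ _ _ s1 s2
  have hrot : ∀ e : T.D, Relation.EqvGen r' (old e) (old (T.rot e)) := by
    intro e
    by_cases h0 : e = A.s0
    · have s1 := st (old A.s0)
      rw [A.rot'_s0] at s1
      have s2 := st (z 0)
      rw [A.rot'_z0] at s2
      rw [h0]
      exact Relation.EqvGen.trans _ _ _ s1 s2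
    by_cases h1 : e = A.s1
    · have s1 := st (old A.s1)
      rw [A.rot'_s1] at s1
      have s2 := st (y (Fin.last N))
      rw [A.rot'_yl] at s2
      rw [h1]
      exact Relation.EqvGen.trans _ _ _ s1 s2
    have s1 := st (old e)
    rw [A.rot'_old h0 h1] at s1
    exact s1
  have hopp : ∀ e : T.D, Relation.EqvGen r' (old e) (old (T.opp e)) := by
    intro e
    by_cases h1 : ∃ i, e = A.d i
    · obtain ⟨i, rfl⟩ := h1
      have s1 := st2 (old (A.d i))
      rw [A.opp'_d] at s1
      have s2 := st2 (xh i)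
      rw [A.opp'_xh] at s2
      exact Relation.EqvGen.trans _ _ _ s1 (Relation.EqvGen.trans _ _ _ (hx i) s2)
    by_cases h2 : ∃ i, e = A.α (A.d i)
    · obtain ⟨i, rfl⟩ := h2
      have s1 := st2 (old (A.α (A.d i)))
      rw [A.opp'_αd] at s1
      have s2 := st2 (xt i)
      rw [A.opp'_xt] at s2
      have e1 : T.opp (A.α (A.d i)) = A.d i := A.hα _
      rw [e1]
      exact Relation.EqvGen.trans _ _ _ s1
        (Relation.EqvGen.trans _ _ _ (Relation.EqvGen.symm _ _ (hx i)) s2)
    push Not at h1 h2
    have s1 := st2 (old e)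
    rw [A.opp'_old h1 h2] at s1
    exact s1
  have key : ∀ a b, Relation.EqvGen r a b → Relation.EqvGen r' (old a) (old b) := by
    intro a b hab
    induction hab with
    | rel a b h =>
      rcases h with rfl | rfl
      · exact hrot a
      · exact hopp a
    | refl a => exact Relation.EqvGen.refl _
    | symm a b _ ih => exact Relation.EqvGen.symm _ _ ih
    | trans a b c _ _ ih1 ih2 => exact Relation.EqvGen.trans _ _ _ ih1 ih2
  let f : Quotient (Relation.EqvGen.setoid r) → Quotient (Relation.EqvGen.setoid r') :=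
    Quotient.map' (fun e => old e) (fun a b hab => key a b hab)
  refine ⟨f, ?_, fun e => rfl⟩
  intro q
  change Quotient (Relation.EqvGen.setoid r') at q
  induction q using Quotient.inductionOn with
  | h e =>
    have ex : ∃ e0 : T.D, Relation.EqvGen r' (old e0) e := by
      have hxt : ∀ i, Relation.EqvGen r' (old (A.d i)) (xt i) := by
        intro i
        have s := st2 (old (A.d i))
        rwa [A.opp'_d] at s
      refine cases_on (P := fun e => ∃ e0 : T.D, Relation.EqvGen r' (old e0) e) e
        ?_ ?_ ?_ ?_ ?_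
      · intro e; exact ⟨e, Relation.EqvGen.refl _⟩
      · intro i; exact ⟨A.d i, hxt i⟩
      · intro i; exact ⟨A.d i, Relation.EqvGen.trans _ _ _ (hxt i) (hx i)⟩
      · intro j
        induction j using Fin.cases with
        | zero =>
          have s := st (z 0)
          rw [A.rot'_z0] at s
          exact ⟨_, Relation.EqvGen.symm _ _ s⟩
        | succ j =>
          have s := st (z j.succ)
          rw [A.rot'_zs] at s
          exact ⟨A.d j, Relation.EqvGen.trans _ _ _ (hxt j) (Relation.EqvGen.symm _ _ s)⟩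
      · intro j
        induction j using Fin.lastCases with
        | last =>
          have s := st (y (Fin.last N))
          rw [A.rot'_yl] at s
          exact ⟨_, Relation.EqvGen.symm _ _ s⟩
        | cast j =>
          have s := st (xt j)
          rw [A.rot'_xt] at s
          exact ⟨A.d j, Relation.EqvGen.trans _ _ _ (hxt j) s⟩
    obtain ⟨e0, he0⟩ := ex
    exact ⟨Quotient.mk _ e0, Quotient.sound (s := Relation.EqvGen.setoid r') he0⟩

theorem components_le (hna : ¬ G.Adj u v) :
    (R.thrackle huv hna).components ≤ T.components := by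
  have := T.finite
  obtain ⟨f, hf, -⟩ := R.exists_map huv hna
  exact Nat.card_le_card_of_surjective f hf

theorem onSurface (hna : ¬ G.Adj u v) {g : ℕ} (hg : T.OnSurface g)
    (Bad : Finset (Fin (N + 1))) (hB : ∀ J ∉ Bad, (R.arc huv).Good J) :
    (R.thrackle huv hna).OnSurface (g + Bad.card) := by
  have := T.finite
  have h1 := R.components_le huv hna
  have h2 := (R.arc huv).cyc_rot'
  have h3 := (R.arc huv).cyc_faces Bad hB
  have h4 : Nat.card (Om T.D N) = Nat.card T.D + (N * 2 + (N + 1) * 2) := by
    rw [Nat.card_sum, Nat.card_sum, Nat.card_prod, Nat.card_prod, Nat.card_fin, Nat.card_fin,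
      Nat.card_eq_fintype_card (α := Bool), Fintype.card_bool]
  unfold Thrackle.OnSurface Thrackle.points Thrackle.faces Thrackle.segments at *
  change 2 * (R.thrackle huv hna).components + (Nat.card (Om T.D N) - Nat.card V) / 2 ≤
    2 * (g + Bad.card) + cyc (R.arc huv).rot' + cyc ((R.arc huv).rot' * (R.arc huv).opp')
  rw [h4]
  change cyc T.rot + N ≤ _ at h2
  change cyc (T.rot * T.opp) + (N + 1) ≤ _ at h3
  omega

end Route

end Pool.Agent.Work.MP_2bb1d3_co_h93
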