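import Pool.Agent.Work.MP_2bb1d3_co_h93.Track

/-! The genus bounds. -/

set_option autoImplicit false

namespace Pool.Agent.Work.MP_2bb1d3_co_h93

open Equiv Equiv.Perm Relation

variable {V : Type} {G : SimpleGraph V}

theorem CanThrackle.mono {g g' : ℕ} (h : CanThrackle G g) (hg : g ≤ g') : CanThrackle G g' := by
  obtain ⟨T, hT⟩ := h
  refine ⟨T, ?_⟩
  unfold Thrackle.OnSurface at *
  omega

theorem Thrackle.finite_vert (T : Thrackle G) : Finite V := by
  have := T.finite
  refine Finite.of_injective T.mark fun a b h => ?_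
  have h1 := T.mark_src a
  rw [h, T.mark_src] at h1
  exact (Option.some.inj h1).symm

section Adj

variable (T : Thrackle G) {u v w : V} (hw : G.Adj u w) (huv : u ≠ v) (hna : ¬ G.Adj u v)

open Classical in
/-- The walk from `u` along `uw`. -/
noncomputable def walk1 (t : Track T u w) : Walk T u v where
  M := t.k + t.q - 1
  W := t.W
  s0 := T.rot.symm (T.opp (t.b 0))
  s1 := T.mark v
  src0 := by
    rw [← T.src_rot, Equiv.apply_symm_apply]; exact t.src_a
  src1 := T.mark_src v
  X := (Finset.range (t.k + t.q - 1)).filter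
    (fun n => t.W n ≠ T.mark w ∧ Disj (T.lab (t.W n)) (u, v))
  Del := (Finset.range (t.k + t.q - 1)).filter (fun n => ¬ Disj (T.lab (t.W n)) (u, v))
  lt := fun n hn => Finset.mem_range.1 (Finset.mem_filter.1 hn).1
  adj := fun n hn => by
    rw [Finset.mem_filter, Finset.mem_range] at hn
    exact (t.W_props hw (by omega) hn.2.1).1
  disj := fun n hn => (Finset.mem_filter.1 hn).2.2
  cover := by
    intro x y hxy hd
    obtain ⟨n, ⟨hn1, hn2⟩, hn3⟩ := t.W_cover hw hxy hd.1 hd.2.2.1
    refine ⟨n, ⟨Finset.mem_filter.2 ⟨Finset.mem_range.2 (by omega), ?_, ?_⟩, hn2⟩, ?_⟩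
    · intro h
      rw [h, T.mark_lab, Prod.mk.injEq, Prod.mk.injEq] at hn2
      rcases hn2 with ⟨h1, h2⟩ | ⟨h1, h2⟩
      · exact hxy.ne (h1.symm.trans h2)
      · exact hxy.ne (h2.symm.trans h1)
    · rcases hn2 with h | h <;> rw [h]
      · exact hd
      · exact hd.swap_left
    · rintro m ⟨hm1, hm2⟩
      rw [Finset.mem_filter, Finset.mem_range] at hm1
      exact hn3 m ⟨by omega, hm2⟩
  P := fun e => e = T.mark w ∨ T.lab e = (u, w)
  hP := by
    have hwv : w ≠ v := fun h => hna (h ▸ hw)
    rintro e (rfl | he)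
    · rw [T.mark_opp]
      refine ⟨?_, ?_, ?_⟩
      · intro h
        have h1 : T.src (T.rot.symm (T.opp (t.b 0))) = some u := by
          rw [← T.src_rot, Equiv.apply_symm_apply]; exact t.src_a
        rw [← h, T.mark_src] at h1
        exact hw.ne' (Option.some.inj h1)
      · intro h
        have h1 := T.mark_src v
        rw [← h, T.mark_src] at h1
        exact hwv (Option.some.inj h1)
      · intro n hn _
        have h1 := (Finset.mem_filter.1 hn).2.1
        refine ⟨fun h => h1 h.symm, fun h => h1 ?_⟩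
        rw [← T.opp_opp (t.W n), ← h, T.mark_opp]
    · have he' : T.lab (T.opp e) = (w, u) := by rw [T.lab_opp, he]; rfl
      refine ⟨?_, ?_, ?_⟩
      · intro h
        have h1 : T.src (T.rot.symm (T.opp (t.b 0))) = some u := by
          rw [← T.src_rot, Equiv.apply_symm_apply]; exact t.src_a
        have h2 := T.src_lab _ _ h1
        rw [← h, he'] at h2
        exact hw.ne' h2
      · intro h
        rw [h, T.mark_lab, Prod.mk.injEq] at he'
        exact huv he'.2.symm
      · intro n hn _
        have h1 := (Finset.mem_filter.1 hn).2.2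
        constructor
        · intro h
          rw [← h, he] at h1
          exact h1.1 rfl
        · intro h
          rw [← T.opp_opp (t.W n), ← h, he'] at h1
          exact h1.2.2.1 rfl
  step := fun n _ => t.reach_W (fun e he => Or.inr he) n
  pas := by
    intro n hn h1 h2
    rw [Finset.mem_filter, not_and, not_and_or, not_not] at h1
    rw [Finset.mem_filter, not_and, not_not] at h2
    have h3 := h1 (Finset.mem_range.2 hn)
    have h4 := h2 (Finset.mem_range.2 hn)
    have h5 : t.W n = T.mark w := by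
      rcases h3 with h3 | h3
      · exact h3
      · exact absurd h4 h3
    rw [h5]
    exact ReflTransGen.single ⟨Or.inl rfl, by rw [T.mark_opp]⟩

include hw huv hna in
theorem add_edge_of_adj {g : ℕ} (hg : T.OnSurface g) :
    CanThrackle (G ⊔ SimpleGraph.edge u v)
      (g + min (G.neighborSet v).ncard
        (G.edgeSet.ncard - ((G.neighborSet u).ncard + (G.neighborSet v).ncard)) + 1) := by
  classical
  have := T.finite_vert
  obtain ⟨t⟩ := exists_track T hw
  have hwv : w ≠ v := fun h => hna (h ▸ hw)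
  have h1 := (walk1 T hw huv hna t).onSurface huv hna hg (by
    change Reach T _ (T.rot (T.rot.symm (T.opp (t.b 0)))) (t.W 0)
    rw [Equiv.apply_symm_apply]
    exact t.reach_W0 (fun e he => Or.inr he))
  refine h1.mono ?_
  have h2 : (walk1 T hw huv hna t).Del.card ≤ (G.neighborSet v).ncard := by
    rw [← Set.ncard_coe_finset]
    have hDel : ∀ n ∈ ((walk1 T hw huv hna t).Del : Set ℕ), n + 1 < t.k + t.q ∧
        ((T.lab (t.W n)).1 = v ∧ G.Adj v (T.lab (t.W n)).2 ∨
          (T.lab (t.W n)).1 ≠ v ∧ (T.lab (t.W n)).2 = v ∧ G.Adj v (T.lab (t.W n)).1) := by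
      intro n hn
      have hn1 := Finset.mem_filter.1 (Finset.mem_coe.1 hn)
      have hn2 := Finset.mem_range.1 hn1.1
      have hn3 := hn1.2
      have hm : t.W n ≠ T.mark w := by
        intro h
        apply hn3
        rw [h, T.mark_lab]
        exact ⟨hw.ne', hwv, hw.ne', hwv⟩
      have hp := t.W_props hw (by omega) hm
      refine ⟨by omega, ?_⟩
      by_cases h5 : (T.lab (t.W n)).1 = v
      · left
        exact ⟨h5, h5 ▸ hp.1⟩
      · right
        have h6 : (T.lab (t.W n)).2 = v := by
          by_contra h6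
          exact hn3 ⟨hp.2.1, h5, hp.2.2, h6⟩
        exact ⟨h5, h6, h6 ▸ hp.1.symm⟩
    refine Set.ncard_le_ncard_of_injOn
      (fun n => if (T.lab (t.W n)).1 = v then (T.lab (t.W n)).2 else (T.lab (t.W n)).1) ?_ ?_
      (Set.toFinite _)
    · intro n hn
      obtain ⟨-, h | h⟩ := hDel n hn
      · change G.Adj v _
        rw [if_pos h.1]; exact h.2
      · change G.Adj v _
        rw [if_neg h.1]; exact h.2.2
    · intro n hn m hm hnm
      have key : ∀ n ∈ ((walk1 T hw huv hna t).Del : Set ℕ), ∀ z,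
          (if (T.lab (t.W n)).1 = v then (T.lab (t.W n)).2 else (T.lab (t.W n)).1) = z →
          n + 1 < t.k + t.q ∧ G.Adj v z ∧ (T.lab (t.W n) = (v, z) ∨ T.lab (t.W n) = (z, v)) := by
        intro n hn z hz
        obtain ⟨h0, h | h⟩ := hDel n hn
        · rw [if_pos h.1] at hz
          subst hz
          exact ⟨h0, h.2, Or.inl (Prod.ext h.1 rfl)⟩
        · rw [if_neg h.1] at hz
          subst hz
          exact ⟨h0, h.2.2, Or.inr (Prod.ext rfl h.2.1)⟩
      obtain ⟨a1, a2, a3⟩ := key n hn _ rfl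
      obtain ⟨b1, b2, b3⟩ := key m hm _ hnm.symm
      obtain ⟨c, -, hc⟩ := t.W_cover hw a2 huv.symm (by
        intro h
        rw [h] at a2
        exact hna a2.symm)
      rw [hc n ⟨a1, a3⟩, hc m ⟨b1, b3⟩]
  omega

end Adj

/-! ### Both ends isolated -/

section Iso

variable (T : Thrackle G) {u v x y : V} (hxy : G.Adj x y) (hu : ∀ z, ¬ G.Adj u z)
  (hv : ∀ z, ¬ G.Adj v z)

variable {T} (t : Track T x y)

/-- the number of darts at `x` apart from the first dart of `xy` -/
noncomputable def pp : ℕ := per T (T.opp (t.b 0)) - 1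

/-- Around `x`, along `xy` and around `y`. -/
noncomputable def W2 (n : ℕ) : T.D :=
  if n < pp t then T.rot^[n + 1] (T.opp (t.b 0)) else t.W (n - pp t)

theorem W2_lt {n : ℕ} (h : n < pp t) : W2 t n = T.rot^[n + 1] (T.opp (t.b 0)) := by
  unfold W2; rw [if_pos h]

theorem W2_ge {n : ℕ} (h : pp t ≤ n) : W2 t n = t.W (n - pp t) := by
  unfold W2; rw [if_neg (by omega)]

theorem W2_add (n : ℕ) : W2 t (pp t + n) = t.W n := by
  rw [W2_ge t (by omega), Nat.add_sub_cancel_left]

theorem src_W2_lt {n : ℕ} (h : n < pp t) : T.src (W2 t n) = some x := by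
  rw [W2_lt t h, src_iterate, t.src_a]

theorem fst_W2_lt {n : ℕ} (h : n < pp t) : (T.lab (W2 t n)).1 = x :=
  T.src_lab _ _ (src_W2_lt t h)

theorem W_last : t.W (t.k + t.q - 1) = t.b t.k := by
  have h1 : 0 < t.q := per_pos _
  rw [t.W_ge (by omega), show t.k + t.q - 1 - t.k + 1 = t.q by omega]
  exact iterate_per _

theorem W2_last : W2 t (pp t + (t.k + t.q) - 1) = t.b t.k := by
  have h1 : 0 < t.q := per_pos _
  rw [show pp t + (t.k + t.q) - 1 = pp t + (t.k + t.q - 1) by omega, W2_add, W_last]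

include hxy in
theorem W2_eq_last {n : ℕ} (hn : n < pp t + (t.k + t.q))
    (hl : T.lab (W2 t n) = (x, y) ∨ T.lab (W2 t n) = (y, x)) : n + 1 = pp t + (t.k + t.q) := by
  have hper : 0 < per T (T.opp (t.b 0)) := per_pos _
  rcases Nat.lt_or_ge n (pp t) with h | h
  · exfalso
    have h1 := fst_W2_lt t h
    have h2 : T.lab (W2 t n) = (x, y) := by
      rcases hl with hl | hl
      · exact hl
      · rw [hl] at h1; exact absurd h1 hxy.ne'
    obtain ⟨c, -, hc⟩ := T.start x y hxy
    have e1 := hc (W2 t n) ⟨src_W2_lt t h, h2⟩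
    have e2 := hc (T.opp (t.b 0)) ⟨t.src_a, by
      rw [T.lab_opp, t.lab 0 (Nat.zero_le _)]; rfl⟩
    have e3 : T.rot^[n + 1] (T.opp (t.b 0)) = T.rot^[0] (T.opp (t.b 0)) := by
      rw [← W2_lt t h, e1, ← e2]; rfl
    have h3 : pp t = per T (T.opp (t.b 0)) - 1 := rfl
    have := iterate_inj (T := T) (by omega) hper e3
    omega
  · by_contra hne
    rw [W2_ge t h] at hl
    have hm : t.W (n - pp t) ≠ T.mark y := by
      intro h1
      rw [h1, T.mark_lab, Prod.mk.injEq, Prod.mk.injEq] at hl
      rcases hl with ⟨h2, -⟩ | ⟨-, h2⟩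
      · exact hxy.ne' h2
      · exact hxy.ne' h2
    have h1 := t.W_props hxy (by omega) hm
    rcases hl with hl | hl <;> rw [hl] at h1
    · exact h1.2.1 rfl
    · exact h1.2.2 rfl

include hxy in
theorem W2_cover_aux {d : V} (hxd : G.Adj x d) (hdy : d ≠ y) :
    ∃! n, n < pp t + (t.k + t.q) ∧ (T.lab (W2 t n) = (x, d) ∨ T.lab (W2 t n) = (d, x)) := by
  have hper : 0 < per T (T.opp (t.b 0)) := per_pos _
  have hpp : pp t = per T (T.opp (t.b 0)) - 1 := rfl
  have hq : 0 < t.q := per_pos _
  obtain ⟨s, ⟨hs1, hs2⟩, hs3⟩ := T.start x d hxd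
  obtain ⟨j, hj1, hj2⟩ := exists_iterate (T := T) t.src_a hs1
  have hj0 : j ≠ 0 := by
    rintro rfl
    have e1 : T.opp (t.b 0) = s := hj2
    have e2 : T.lab (T.opp (t.b 0)) = (x, y) := by
      rw [T.lab_opp, t.lab 0 (Nat.zero_le _)]; rfl
    rw [e1, hs2, Prod.mk.injEq] at e2
    exact hdy e2.2
  refine ⟨j - 1, ⟨by omega, Or.inl ?_⟩, ?_⟩
  · rw [W2_lt t (by omega), show j - 1 + 1 = j by omega, hj2, hs2]
  · rintro n ⟨hn, hl⟩
    rcases Nat.lt_or_ge n (pp t) with h | h
    · have h1 := fst_W2_lt t h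
      have h2 : T.lab (W2 t n) = (x, d) := by
        rcases hl with hl | hl
        · exact hl
        · rw [hl] at h1; exact absurd h1 hxd.ne'
      have h3 := hs3 _ ⟨src_W2_lt t h, h2⟩
      rw [W2_lt t h, ← hj2] at h3
      have := iterate_inj (T := T) (by omega) hj1 h3
      omega
    · exfalso
      rcases Nat.lt_or_ge (n - pp t + 1) (t.k + t.q) with h4 | h4
      · rw [W2_ge t h] at hl
        have hm : t.W (n - pp t) ≠ T.mark y := by
          intro h1
          rw [h1, T.mark_lab, Prod.mk.injEq, Prod.mk.injEq] at hl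
          rcases hl with ⟨h2, -⟩ | ⟨-, h2⟩
          · exact hxy.ne' h2
          · exact hxy.ne' h2
        have h1 := t.W_props hxy h4 hm
        rcases hl with hl | hl <;> rw [hl] at h1
        · exact h1.2.1 rfl
        · exact h1.2.2 rfl
      · have h5 : n = pp t + (t.k + t.q) - 1 := by omega
        rw [h5, W2_last, t.lab _ le_rfl, Prod.mk.injEq, Prod.mk.injEq] at hl
        rcases hl with ⟨h6, -⟩ | ⟨h6, -⟩
        · exact hxy.ne' h6
        · exact hdy h6.symm

include hxy in
theorem W2_cover {c d : V} (hcd : G.Adj c d) :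
    ∃! n, n < pp t + (t.k + t.q) ∧ (T.lab (W2 t n) = (c, d) ∨ T.lab (W2 t n) = (d, c)) := by
  have hq : 0 < t.q := per_pos _
  by_cases hc : c = x
  · subst hc
    by_cases hd : d = y
    · subst hd
      refine ⟨pp t + (t.k + t.q) - 1, ⟨by omega, Or.inr ?_⟩, ?_⟩
      · rw [W2_last, t.lab _ le_rfl]
      · rintro n ⟨hn, hl⟩
        have := W2_eq_last hxy t hn hl
        omega
    · exact W2_cover_aux hxy t hcd hd
  by_cases hd : d = x
  · subst hd
    by_cases hc' : c = y
    · subst hc'
      refine ⟨pp t + (t.k + t.q) - 1, ⟨by omega, Or.inl ?_⟩, ?_⟩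
      · rw [W2_last, t.lab _ le_rfl]
      · rintro n ⟨hn, hl⟩
        have := W2_eq_last hxy t hn hl.symm
        omega
    · obtain ⟨n, hn1, hn2⟩ := W2_cover_aux hxy t hcd.symm hc'
      exact ⟨n, ⟨hn1.1, hn1.2.symm⟩, fun m hm => hn2 m ⟨hm.1, hm.2.symm⟩⟩
  obtain ⟨m, ⟨hm1, hm2⟩, hm3⟩ := t.W_cover hxy hcd hc hd
  refine ⟨pp t + m, ⟨by omega, by rw [W2_add]; exact hm2⟩, ?_⟩
  rintro n ⟨hn, hl⟩
  rcases Nat.lt_or_ge n (pp t) with h | h
  · exfalso
    have h1 := fst_W2_lt t h
    rcases hl with hl | hl <;> rw [hl] at h1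
    · exact hc h1
    · exact hd h1
  · rcases Nat.lt_or_ge (n - pp t + 1) (t.k + t.q) with h4 | h4
    · rw [W2_ge t h] at hl
      have := hm3 _ ⟨h4, hl⟩
      omega
    · exfalso
      have h5 : n = pp t + (t.k + t.q) - 1 := by omega
      rw [h5, W2_last, t.lab _ le_rfl, Prod.mk.injEq, Prod.mk.injEq] at hl
      rcases hl with ⟨-, h6⟩ | ⟨-, h6⟩
      · exact hd h6.symm
      · exact hc h6.symm

theorem W2_adj {n : ℕ} (h1 : W2 t n ≠ T.mark x) (h2 : W2 t n ≠ T.mark y) :
    G.Adj (T.lab (W2 t n)).1 (T.lab (W2 t n)).2 := by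
  rcases T.lab_adj (W2 t n) with ⟨s, hs⟩ | h
  · exfalso
    have h3 : T.src (W2 t n) = some s := by rw [hs, T.mark_src]
    rcases Nat.lt_or_ge n (pp t) with h | h
    · rw [src_W2_lt t h] at h3
      apply h1
      rw [hs, Option.some.inj h3]
    · rw [W2_ge t h] at h3
      rcases Nat.lt_or_ge (n - pp t) t.k with h4 | h4
      · rw [t.src_W_lt h4] at h3
        exact absurd h3 (by simp)
      · rw [t.src_W_ge h4] at h3
        apply h2
        rw [hs, Option.some.inj h3]
  · exact h

theorem disj_of_iso (hu : ∀ z, ¬ G.Adj u z) (hv : ∀ z, ¬ G.Adj v z) {a : V × V}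
    (h : G.Adj a.1 a.2) : Disj a (u, v) := by
  refine ⟨?_, ?_, ?_, ?_⟩
  · intro h1; rw [h1] at h; exact hu _ h
  · intro h1; rw [h1] at h; exact hv _ h
  · intro h1; rw [h1] at h; exact hu _ h.symm
  · intro h1; rw [h1] at h; exact hv _ h.symm

open Classical in
/-- The walk between two isolated vertices. -/
noncomputable def walk2 : Walk T u v where
  M := pp t + (t.k + t.q)
  W := W2 t
  s0 := T.mark u
  s1 := T.mark v
  src0 := T.mark_src u
  src1 := T.mark_src v
  X := (Finset.range (pp t + (t.k + t.q))).filter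
    (fun n => W2 t n ≠ T.mark x ∧ W2 t n ≠ T.mark y)
  Del := ∅
  lt := fun n hn => Finset.mem_range.1 (Finset.mem_filter.1 hn).1
  adj := fun n hn => by
    rw [Finset.mem_filter] at hn
    exact W2_adj t hn.2.1 hn.2.2
  disj := fun n hn => by
    rw [Finset.mem_filter] at hn
    exact disj_of_iso hu hv (W2_adj t hn.2.1 hn.2.2)
  cover := by
    intro a b hab _
    obtain ⟨n, ⟨hn1, hn2⟩, hn3⟩ := W2_cover hxy t hab
    have hmk : ∀ s, W2 t n ≠ T.mark s := by
      intro s h
      rw [h, T.mark_lab, Prod.mk.injEq, Prod.mk.injEq] at hn2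
      rcases hn2 with ⟨h1, h2⟩ | ⟨h1, h2⟩
      · exact hab.ne (h1.symm.trans h2)
      · exact hab.ne (h2.symm.trans h1)
    refine ⟨n, ⟨Finset.mem_filter.2 ⟨Finset.mem_range.2 hn1, hmk _, hmk _⟩, hn2⟩, ?_⟩
    rintro m ⟨hm1, hm2⟩
    rw [Finset.mem_filter, Finset.mem_range] at hm1
    exact hn3 m ⟨hm1.1, hm2⟩
  P := fun e => e = T.mark x ∨ e = T.mark y ∨ T.lab e = (x, y)
  hP := by
    have hne : ∀ s s', s ≠ s' → T.mark s ≠ T.mark s' := by
      intro s s' h h1
      have h2 := T.mark_src s
      rw [h1, T.mark_src] at h2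
      exact h (Option.some.inj h2).symm
    have hxu : x ≠ u := fun h => hu y (h ▸ hxy)
    have hxv : x ≠ v := fun h => hv y (h ▸ hxy)
    have hyu : y ≠ u := fun h => hu x (h ▸ hxy.symm)
    have hyv : y ≠ v := fun h => hv x (h ▸ hxy.symm)
    rintro e (rfl | rfl | he)
    · rw [T.mark_opp]
      refine ⟨hne _ _ hxu, hne _ _ hxv, ?_⟩
      intro n hn _
      have h1 := (Finset.mem_filter.1 hn).2.1
      refine ⟨fun h => h1 h.symm, fun h => h1 ?_⟩
      rw [← T.opp_opp (W2 t n), ← h, T.mark_opp]
    · rw [T.mark_opp]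
      refine ⟨hne _ _ hyu, hne _ _ hyv, ?_⟩
      intro n hn _
      have h1 := (Finset.mem_filter.1 hn).2.2
      refine ⟨fun h => h1 h.symm, fun h => h1 ?_⟩
      rw [← T.opp_opp (W2 t n), ← h, T.mark_opp]
    · have he' : T.lab (T.opp e) = (y, x) := by rw [T.lab_opp, he]; rfl
      refine ⟨?_, ?_, ?_⟩
      · intro h
        rw [h, T.mark_lab, Prod.mk.injEq] at he'
        exact hyu he'.1.symm
      · intro h
        rw [h, T.mark_lab, Prod.mk.injEq] at he'
        exact hyv he'.1.symm
      · intro n hn hM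
        have h0 := Finset.mem_range.1 (Finset.mem_filter.1 hn).1
        constructor
        · intro h
          have := W2_eq_last hxy t h0 (Or.inl (by rw [← h, he]))
          omega
        · intro h
          have := W2_eq_last hxy t h0 (Or.inr (by rw [← T.opp_opp (W2 t n), ← h, he']))
          omega
  step := by
    intro n hn
    have hper : 0 < per T (T.opp (t.b 0)) := per_pos _
    have hpp : pp t = per T (T.opp (t.b 0)) - 1 := rfl
    rcases Nat.lt_or_ge n (pp t) with h | h
    · rcases Nat.lt_or_ge (n + 1) (pp t) with h1 | h1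
      · rw [W2_lt t h, W2_lt t h1, ← Function.iterate_succ_apply' T.rot]
        exact ReflTransGen.refl
      · rw [W2_lt t h, W2_ge t h1, ← Function.iterate_succ_apply' T.rot,
          show (n + 1).succ = per T (T.opp (t.b 0)) by omega, iterate_per,
          show n + 1 - pp t = 0 by omega]
        exact t.reach_W0 (fun e he => Or.inr (Or.inr he))
    · rw [W2_ge t h, W2_ge t (by omega), show n + 1 - pp t = (n - pp t) + 1 by omega]
      exact t.reach_W (fun e he => Or.inr (Or.inr he)) _
  pas := by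
    intro n hn h1 _
    rw [Finset.mem_filter, not_and, not_and_or, not_not, not_not] at h1
    rcases h1 (Finset.mem_range.2 hn) with h5 | h5
    · rw [h5]
      exact ReflTransGen.single ⟨Or.inl rfl, by rw [T.mark_opp]⟩
    · rw [h5]
      exact ReflTransGen.single ⟨Or.inr (Or.inl rfl), by rw [T.mark_opp]⟩

theorem add_edge_of_iso {u v : V} (hu : ∀ z, ¬ G.Adj u z) (hv : ∀ z, ¬ G.Adj v z) (huv : u ≠ v)
    {g : ℕ} (T : Thrackle G) (hg : T.OnSurface g) :
    CanThrackle (G ⊔ SimpleGraph.edge u v) (g + 1) := by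
  by_cases hG : ∃ x y, G.Adj x y
  · obtain ⟨x, y, hxy⟩ := hG
    obtain ⟨t⟩ := exists_track T hxy
    exact (walk2 hxy hu hv t).onSurface_iso huv hu hg rfl
  · push Not at hG
    let w : Walk T u v :=
      { M := 0
        W := fun _ => T.mark u
        s0 := T.mark u
        s1 := T.mark v
        src0 := T.mark_src u
        src1 := T.mark_src v
        X := ∅
        Del := ∅
        lt := fun n hn => absurd hn (Finset.notMem_empty _)
        adj := fun n hn => absurd hn (Finset.notMem_empty _)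
        disj := fun n hn => absurd hn (Finset.notMem_empty _)
        cover := fun x y h => absurd h (hG x y)
        P := fun _ => False
        hP := fun _ h => absurd h id
        step := fun n hn => absurd hn (by omega)
        pas := fun n hn => absurd hn (by omega) }
    exact w.onSurface_iso huv hu hg rfl

end Iso

/-! ### The bounds -/

/-- The main inequality. -/
theorem CanThrackle.add_edge {u v : V} (huv : u ≠ v) (hna : ¬ G.Adj u v) {g : ℕ}
    (h : CanThrackle G g) :
    CanThrackle (G ⊔ SimpleGraph.edge u v)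
      (g + min (min (G.neighborSet u).ncard (G.neighborSet v).ncard)
        (G.edgeSet.ncard - ((G.neighborSet u).ncard + (G.neighborSet v).ncard)) + 1) := by
  obtain ⟨T, hT⟩ := h
  have := T.finite_vert
  have hz : ∀ s : V, (¬ ∃ w, G.Adj s w) → (G.neighborSet s).ncard = 0 := by
    intro s hs
    rw [Set.ncard_eq_zero (Set.toFinite _)]
    ext z
    simp only [SimpleGraph.mem_neighborSet, Set.mem_empty_iff_false, iff_false]
    exact fun h => hs ⟨z, h⟩
  by_cases hu : ∃ w, G.Adj u w
  · obtain ⟨w, hw⟩ := hu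
    have h1 := add_edge_of_adj T hw huv hna hT
    by_cases hv : ∃ w, G.Adj v w
    · obtain ⟨w', hw'⟩ := hv
      have h2 := add_edge_of_adj T hw' huv.symm (fun h => hna h.symm) hT
      rw [SimpleGraph.edge_comm] at h2
      rcases le_total (G.neighborSet u).ncard (G.neighborSet v).ncard with h3 | h3
      · rw [min_eq_left h3]; exact h2.mono (by omega)
      · rw [min_eq_right h3]; exact h1.mono (by omega)
    · have h3 := hz v hv
      exact h1.mono (by omega)
  · by_cases hv : ∃ w, G.Adj v w
    · obtain ⟨w', hw'⟩ := hv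
      have h2 := add_edge_of_adj T hw' huv.symm (fun h => hna h.symm) hT
      rw [SimpleGraph.edge_comm] at h2
      have h3 := hz u hu
      exact h2.mono (by omega)
    · push Not at hu hv
      exact (add_edge_of_iso hu hv huv T hT).mono (by omega)

end Pool.Agent.Work.MP_2bb1d3_co_h93
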