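import Pool.Agent.Work.MP_2bb1d3_co_h93.Walk

/-! Following an edge of a thrackle and going around its end. -/

set_option autoImplicit false

namespace Pool.Agent.Work.MP_2bb1d3_co_h93

open Equiv Equiv.Perm Relation

variable {V : Type} {G : SimpleGraph V}

/-- The darts of the edge `xy` which point towards `x`; the first one arrives at `x`, the last
one starts at `y`. -/
structure Track (T : Thrackle G) (x y : V) where
  k : ℕ
  b : ℕ → T.D
  src_a : T.src (T.opp (b 0)) = some x
  lab : ∀ i ≤ k, T.lab (b i) = (y, x)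
  sn : ∀ i < k, T.src (b i) = none
  src_b : T.src (b k) = some y
  succ : ∀ i < k, T.opp (b (i + 1)) = T.rot (T.rot (b i))
  inj : ∀ i j, i ≤ k → j ≤ k → b i = b j → i = j
  all : ∀ e, T.src e = none → T.lab e = (y, x) → ∃ i < k, e = b i

theorem exists_track (T : Thrackle G) {x y : V} (h : G.Adj x y) : Nonempty (Track T x y) := by
  classical
  obtain ⟨a, ⟨ha1, ha2⟩, ha3⟩ := T.start x y h
  obtain ⟨c, ⟨hc1, hc2⟩, hc3⟩ := T.start y x h.symm
  set bk : T.D → T.D := fun e => T.opp (T.rot (T.rot e)) with hbk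
  have bkinj : Function.Injective bk := fun e e' he => by
    simp only [hbk] at he
    exact T.rot.injective (T.rot.injective (T.opp.injective he))
  have hlabbk : ∀ e, T.src e = none → T.lab (bk e) = T.lab e := by
    intro e he
    simp only [hbk]
    rw [T.lab_opp, T.cross_lab e he, Prod.swap_swap]
  -- minimal index where the trace arrives
  have key : ∀ e, ∃ k, T.src (bk^[k] e) ≠ none ∧ ∀ i < k, T.src (bk^[i] e) = none := by
    intro e
    have hex := T.trace e
    refine ⟨Nat.find hex, Nat.find_spec hex, fun i hi => ?_⟩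
    have := Nat.find_min hex hi
    exact not_not.1 this
  have hlab : ∀ e, T.lab e = (y, x) → ∀ k, (∀ i < k, T.src (bk^[i] e) = none) →
      T.lab (bk^[k] e) = (y, x) := by
    intro e he k
    induction k with
    | zero => intro _; exact he
    | succ k ih =>
      intro hk
      rw [Function.iterate_succ_apply', hlabbk _ (hk k (Nat.lt_succ_self k))]
      exact ih fun i hi => hk i (Nat.lt_succ_of_lt hi)
  have hend : ∀ e, T.lab e = (y, x) → ∀ k, T.src (bk^[k] e) ≠ none →
      (∀ i < k, T.src (bk^[i] e) = none) → bk^[k] e = c := by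
    intro e he k h1 h2
    have h3 := hlab e he k h2
    obtain ⟨s, hs⟩ := Option.ne_none_iff_exists'.1 h1
    have h4 := T.src_lab _ _ hs
    rw [h3] at h4
    change y = s at h4
    exact hc3 _ ⟨by rw [hs, h4], h3⟩
  have hb0 : T.lab (T.opp a) = (y, x) := by rw [T.lab_opp, ha2]; rfl
  obtain ⟨k, hk1, hk2⟩ := key (T.opp a)
  have hkc := hend _ hb0 k hk1 hk2
  refine ⟨⟨k, fun i => bk^[i] (T.opp a), ?_, ?_, ?_, ?_, ?_, ?_, ?_⟩⟩
  · change T.src (T.opp (T.opp a)) = some x
    rw [T.opp_opp, ha1]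
  · intro i hi
    exact hlab _ hb0 i fun j hj => hk2 j (lt_of_lt_of_le hj hi)
  · exact hk2
  · rw [hkc, hc1]
  · intro i hi
    rw [Function.iterate_succ_apply']
    exact T.opp_opp _
  · -- injectivity
    have main : ∀ i j, i ≤ k → j ≤ k → i < j → bk^[i] (T.opp a) ≠ bk^[j] (T.opp a) := by
      intro i j hi hj hij he
      have e1 : bk^[j] (T.opp a) = bk^[i] (bk^[j - i] (T.opp a)) := by
        rw [← Function.iterate_add_apply]; congr 1; omega
      rw [e1] at he
      have e2 := bkinj.iterate i he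
      have e3 : bk^[k] (T.opp a) = bk^[k - (j - i)] (T.opp a) := by
        conv_rhs => rw [e2]
        rw [← Function.iterate_add_apply]; congr 1; omega
      have e4 := hk2 (k - (j - i)) (by omega)
      rw [← e3] at e4
      exact hk1 e4
    intro i j hi hj he
    rcases lt_trichotomy i j with h1 | h1 | h1
    · exact absurd he (main i j hi hj h1)
    · exact h1
    · exact absurd he.symm (main j i hj hi h1)
  · -- all darts
    intro e he1 he2
    obtain ⟨j, hj1, hj2⟩ := key e
    have hjc := hend e he2 j hj1 hj2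
    have heq : bk^[j] e = bk^[k] (T.opp a) := by rw [hjc, hkc]
    have hj0 : j ≠ 0 := by
      rintro rfl
      exact hj1 he1
    rcases le_or_gt j k with hjk | hjk
    · refine ⟨k - j, by omega, ?_⟩
      have e1 : bk^[k] (T.opp a) = bk^[j] (bk^[k - j] (T.opp a)) := by
        rw [← Function.iterate_add_apply]; congr 1; omega
      rw [e1] at heq
      exact bkinj.iterate j heq
    · exfalso
      have e1 : bk^[j] e = bk^[k] (bk^[j - k] e) := by
        rw [← Function.iterate_add_apply]; congr 1; omega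
      rw [e1] at heq
      have e2 := bkinj.iterate k heq
      have e3 : bk^[j - k] e = bk (bk^[j - k - 1] e) := by
        rw [← Function.iterate_succ_apply' bk]; congr 1; omega
      rw [e3] at e2
      have e4 : T.rot (T.rot (bk^[j - k - 1] e)) = a := T.opp.injective e2
      have e5 := hj2 (j - k - 1) (by omega)
      rw [← T.src_rot, ← T.src_rot, e4, ha1] at e5
      exact absurd e5 (by simp)

/-! ### Going around a vertex -/

section Round

variable (T : Thrackle G)

/-- the number of darts at the start of `e` -/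
noncomputable def per (e : T.D) : ℕ := Function.minimalPeriod T.rot e

variable {T}

theorem per_pos (e : T.D) : 0 < per T e := by
  have := T.finite
  exact Function.minimalPeriod_pos_of_mem_periodicPts
    (T.rot.injective.mem_periodicPts e)

theorem iterate_per (e : T.D) : T.rot^[per T e] e = e := Function.iterate_minimalPeriod

theorem src_iterate (e : T.D) (j : ℕ) : T.src (T.rot^[j] e) = T.src e := by
  induction j with
  | zero => rfl
  | succ j ih => rw [Function.iterate_succ_apply', T.src_rot, ih]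

theorem iterate_inj {e : T.D} {i j : ℕ} (hi : i < per T e) (hj : j < per T e)
    (h : T.rot^[i] e = T.rot^[j] e) : i = j :=
  Function.iterate_injOn_Iio_minimalPeriod (Set.mem_Iio.2 hi) (Set.mem_Iio.2 hj) h

theorem exists_iterate {e e' : T.D} {s : V} (h : T.src e = some s) (h' : T.src e' = some s) :
    ∃ j < per T e, T.rot^[j] e = e' := by
  have := T.finite
  have h1 := (T.vertex e s h).symm.trans (T.vertex e' s h')
  obtain ⟨n, hn⟩ := h1.exists_nat_pow_eq
  refine ⟨n % per T e, Nat.mod_lt _ (per_pos e), ?_⟩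
  rw [per, Function.iterate_mod_minimalPeriod_eq, ← Perm.coe_pow, hn]

end Round

namespace Track

variable {T : Thrackle G} {x y : V} (t : Track T x y)

/-- the darts met by a walk which follows the edge from `x` to `y` and then goes around `y` -/
def W (n : ℕ) : T.D := if n < t.k then T.rot (t.b n) else T.rot^[n - t.k + 1] (t.b t.k)

/-- the number of darts at the end `y` -/
noncomputable def q : ℕ := per T (t.b t.k)

theorem W_le {n : ℕ} (h : n ≤ t.k) : t.W n = T.rot (t.b n) := by
  unfold W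
  rcases Nat.lt_or_ge n t.k with h1 | h1
  · rw [if_pos h1]
  · have : n = t.k := le_antisymm h h1
    subst this
    rw [if_neg (lt_irrefl _), Nat.sub_self]; rfl

theorem W_ge {n : ℕ} (h : t.k ≤ n) : t.W n = T.rot^[n - t.k + 1] (t.b t.k) := by
  unfold W
  rw [if_neg (by omega)]

theorem src_W_lt {n : ℕ} (h : n < t.k) : T.src (t.W n) = none := by
  rw [t.W_le h.le, T.src_rot, t.sn n h]

theorem src_W_ge {n : ℕ} (h : t.k ≤ n) : T.src (t.W n) = some y := by
  rw [t.W_ge h, src_iterate, t.src_b]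

theorem disj_W {n : ℕ} (h : n < t.k) : Disj (y, x) (T.lab (t.W n)) := by
  have := T.cross_disj (t.b n) (t.sn n h)
  rwa [t.lab n h.le, ← t.W_le h.le] at this

theorem fst_W {n : ℕ} (h : t.k ≤ n) : (T.lab (t.W n)).1 = y :=
  T.src_lab _ _ (t.src_W_ge h)

theorem W_props (hxy : G.Adj x y) {n : ℕ} (hn : n + 1 < t.k + t.q) (hm : t.W n ≠ T.mark y) :
    G.Adj (T.lab (t.W n)).1 (T.lab (t.W n)).2 ∧ (T.lab (t.W n)).1 ≠ x ∧
      (T.lab (t.W n)).2 ≠ x := by
  rcases Nat.lt_or_ge n t.k with h | h
  · have h1 := t.disj_W h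
    refine ⟨Route.adj_of_src_none (t.src_W_lt h), fun h2 => h1.2.2.1 h2.symm,
      fun h2 => h1.2.2.2 h2.symm⟩
  · have h1 := t.fst_W h
    refine ⟨?_, by rw [h1]; exact hxy.ne', ?_⟩
    · rcases T.lab_adj (t.W n) with ⟨s, hs⟩ | h2
      · exfalso
        have h3 := t.src_W_ge h
        rw [hs, T.mark_src] at h3
        apply hm
        rw [hs, Option.some.inj h3]
      · exact h2
    · intro h2
      obtain ⟨c, -, hc⟩ := T.start y x hxy.symm
      have e1 := hc (t.W n) ⟨t.src_W_ge h, Prod.ext h1 h2⟩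
      have e2 := hc (t.b t.k) ⟨t.src_b, t.lab _ le_rfl⟩
      have e3 : T.rot^[n - t.k + 1] (t.b t.k) = T.rot^[0] (t.b t.k) := by
        rw [← t.W_ge h, e1, ← e2]; rfl
      have e4 := iterate_inj (T := T) (e := t.b t.k) (i := n - t.k + 1) (j := 0) (by
        change _ < t.q; omega) (per_pos _) e3
      omega

theorem W_cover_aux {c : V} (hyc : G.Adj y c) (hcx : c ≠ x) :
    ∃! n, n + 1 < t.k + t.q ∧ (T.lab (t.W n) = (y, c) ∨ T.lab (t.W n) = (c, y)) := by
  obtain ⟨s, ⟨hs1, hs2⟩, hs3⟩ := T.start y c hyc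
  obtain ⟨j, hj1, hj2⟩ := exists_iterate (T := T) t.src_b hs1
  have hj0 : j ≠ 0 := by
    rintro rfl
    have e1 : t.b t.k = s := hj2
    have e2 := t.lab _ le_rfl
    rw [e1, hs2, Prod.mk.injEq] at e2
    exact hcx e2.2
  have hq : j < t.q := hj1
  refine ⟨t.k + (j - 1), ⟨by omega, Or.inl ?_⟩, ?_⟩
  · rw [t.W_ge (by omega), show t.k + (j - 1) - t.k + 1 = j by omega, hj2, hs2]
  · rintro n ⟨hn, hl⟩
    rcases Nat.lt_or_ge n t.k with h | h
    · exfalso
      have h1 := t.disj_W h
      rcases hl with hl | hl <;> rw [hl] at h1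
      · exact h1.1 rfl
      · exact h1.2.1 rfl
    · have h1 := t.fst_W h
      have h2 : T.lab (t.W n) = (y, c) := by
        rcases hl with hl | hl
        · exact hl
        · rw [hl] at h1; exact absurd h1 hyc.ne'
      have h3 := hs3 _ ⟨t.src_W_ge h, h2⟩
      rw [t.W_ge h, ← hj2] at h3
      have := iterate_inj (T := T) (by change _ < t.q; omega) hj1 h3
      omega

theorem W_cover {c d : V} (hxy : G.Adj x y) (hcd : G.Adj c d) (hc : c ≠ x) (hd : d ≠ x) :
    ∃! n, n + 1 < t.k + t.q ∧ (T.lab (t.W n) = (c, d) ∨ T.lab (t.W n) = (d, c)) := by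
  by_cases h1 : c = y
  · subst h1
    exact t.W_cover_aux hcd hd
  by_cases h2 : d = y
  · subst h2
    obtain ⟨n, hn1, hn2⟩ := t.W_cover_aux hcd.symm hc
    exact ⟨n, ⟨hn1.1, hn1.2.symm⟩, fun m hm => hn2 m ⟨hm.1, hm.2.symm⟩⟩
  have hdis : Disj (y, x) (c, d) := ⟨fun h => h1 h.symm, fun h => h2 h.symm,
    fun h => hc h.symm, fun h => hd h.symm⟩
  obtain ⟨e, ⟨he1, he2, he3⟩, he4⟩ := T.once y x c d hxy.symm hcd hdis
  obtain ⟨i, hi, rfl⟩ := t.all e he1 he2
  have hqpos : 0 < t.q := per_pos _
  refine ⟨i, ⟨by omega, ?_⟩, ?_⟩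
  · rw [t.W_le hi.le]; exact he3
  · rintro n ⟨hn, hl⟩
    rcases Nat.lt_or_ge n t.k with h | h
    · rw [t.W_le h.le] at hl
      have := he4 (t.b n) ⟨t.sn n h, t.lab n h.le, hl⟩
      exact t.inj _ _ h.le hi.le this
    · exfalso
      have h3 := t.fst_W h
      rcases hl with hl | hl <;> rw [hl] at h3
      · exact h1 h3
      · exact h2 h3

theorem rot_W_lt {n : ℕ} (h : n < t.k) : T.rot (t.W n) = T.opp (t.b (n + 1)) := by
  rw [t.W_le h.le, t.succ n h]

theorem rot_W_ge {n : ℕ} (h : t.k ≤ n) : T.rot (t.W n) = t.W (n + 1) := by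
  rw [t.W_ge h, t.W_ge (by omega : t.k ≤ n + 1), ← Function.iterate_succ_apply' T.rot]
  congr 1; congr 1; omega

/-- passing from one dart of the walk to the next -/
theorem reach_W {P : T.D → Prop} (hP : ∀ e, T.lab e = (x, y) → P e) (n : ℕ) :
    Reach T P (T.rot (t.W n)) (t.W (n + 1)) := by
  rcases Nat.lt_or_ge n t.k with h | h
  · refine ReflTransGen.single ⟨hP _ ?_, ?_⟩
    · rw [t.rot_W_lt h, T.lab_opp, t.lab (n + 1) h]; rfl
    · rw [t.rot_W_lt h, T.opp_opp, t.W_le h]
  · rw [t.rot_W_ge h]; exact ReflTransGen.refl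

theorem reach_W0 {P : T.D → Prop} (hP : ∀ e, T.lab e = (x, y) → P e) :
    Reach T P (T.opp (t.b 0)) (t.W 0) := by
  refine ReflTransGen.single ⟨hP _ ?_, ?_⟩
  · rw [T.lab_opp, t.lab 0 (Nat.zero_le _)]; rfl
  · rw [T.opp_opp, t.W_le (Nat.zero_le _)]

end Track

end Pool.Agent.Work.MP_2bb1d3_co_h93
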