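import Pool.Agent.Work.MP_2bb1d3_co_h93.Comp

/-! Routes from walks. -/

set_option autoImplicit false

namespace Pool.Agent.Work.MP_2bb1d3_co_h93

open Equiv Equiv.Perm Relation

variable {V : Type} {G : SimpleGraph V}

/-- walking along a face through darts which satisfy `P` -/
def Reach (T : Thrackle G) (P : T.D → Prop) (e e' : T.D) : Prop :=
  ReflTransGen (fun e e' => P e ∧ e' = T.rot (T.opp e)) e e'

/-- A walk along which the new edge `uv` is drawn.  The darts `W n`, `n ∈ X`, are crossed. -/
structure Walk (T : Thrackle G) (u v : V) where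
  M : ℕ
  W : ℕ → T.D
  s0 : T.D
  s1 : T.D
  src0 : T.src s0 = some u
  src1 : T.src s1 = some v
  X : Finset ℕ
  Del : Finset ℕ
  lt : ∀ n ∈ X, n < M
  adj : ∀ n ∈ X, G.Adj (T.lab (W n)).1 (T.lab (W n)).2
  disj : ∀ n ∈ X, Disj (T.lab (W n)) (u, v)
  cover : ∀ x y, G.Adj x y → Disj (x, y) (u, v) →
    ∃! n, n ∈ X ∧ (T.lab (W n) = (x, y) ∨ T.lab (W n) = (y, x))
  P : T.D → Prop
  hP : ∀ e, P e → T.opp e ≠ s0 ∧ T.opp e ≠ s1 ∧
    ∀ n ∈ X, n + 1 < M → e ≠ W n ∧ e ≠ T.opp (W n)
  step : ∀ n, n + 1 < M → Reach T P (T.rot (W n)) (W (n + 1))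
  pas : ∀ n < M, n ∉ X → n ∉ Del → Reach T P (W n) (T.rot (W n))

namespace Walk

variable {T : Thrackle G} {u v : V} (w : Walk T u v)

/-- the increasing enumeration of the crossed darts -/
noncomputable def ix (i : Fin w.X.card) : ℕ := w.X.orderEmbOfFin rfl i

theorem ix_mem (i : Fin w.X.card) : w.ix i ∈ w.X := Finset.orderEmbOfFin_mem _ _ _

theorem ix_lt {i j : Fin w.X.card} : w.ix i < w.ix j ↔ i < j :=
  (w.X.orderEmbOfFin rfl).lt_iff_lt

theorem ix_inj {i j : Fin w.X.card} (h : w.ix i = w.ix j) : i = j :=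
  (w.X.orderEmbOfFin rfl).injective h

theorem exists_ix {n : ℕ} (h : n ∈ w.X) : ∃ i, w.ix i = n := by
  have h1 : n ∈ Set.range (w.X.orderEmbOfFin rfl) := by
    rw [Finset.range_orderEmbOfFin]; exact h
  exact h1

/-- The route of a walk. -/
noncomputable def route : Route T u v w.X.card where
  d := fun i => w.W (w.ix i)
  s0 := w.s0
  s1 := w.s1
  src0 := w.src0
  src1 := w.src1
  adj := fun i => w.adj _ (w.ix_mem i)
  disj := fun i => w.disj _ (w.ix_mem i)
  cover := by
    intro x y hxy hd
    obtain ⟨n, ⟨h1, h2⟩, h3⟩ := w.cover x y hxy hd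
    obtain ⟨i, rfl⟩ := w.exists_ix h1
    refine ⟨i, h2, fun j hj => ?_⟩
    exact w.ix_inj (h3 _ ⟨w.ix_mem j, hj⟩)

theorem steps (huv : u ≠ v) {k : Fin w.X.card} {e e' : T.D} (h : Reach T w.P e e') :
    ReflTransGen ((w.route.arc huv).Step k.val) e e' := by
  induction h with
  | refl => exact ReflTransGen.refl
  | tail _ h ih =>
    obtain ⟨h1, rfl⟩ := h
    refine ih.tail ⟨rfl, (w.hP _ h1).1, (w.hP _ h1).2.1, ?_⟩
    intro i hi
    have h2 : w.ix i < w.ix k := w.ix_lt.2 hi
    have h3 := w.lt _ (w.ix_mem k)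
    exact (w.hP _ h1).2.2 _ (w.ix_mem i) (by omega)

/-- walking on through passive indices -/
theorem reach_from {a : T.D} {m : ℕ} (n : ℕ) (hm : Reach T w.P a (w.W m))
    (hn : m + n < w.M) (hp : ∀ l, m ≤ l → l < m + n → l ∉ w.X ∧ l ∉ w.Del) :
    Reach T w.P a (w.W (m + n)) := by
  induction n with
  | zero => exact hm
  | succ n ih =>
    have h1 := ih (by omega) (fun l h1 h2 => hp l h1 (by omega))
    have h2 := hp (m + n) (by omega) (by omega)
    have h3 := w.pas (m + n) (by omega) h2.1 h2.2
    have h4 := w.step (m + n) (by omega)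
    exact h1.trans (h3.trans h4)

/-- the gap which contains an index -/
noncomputable def gap (m : ℕ) : Fin (w.X.card + 1) :=
  ⟨(w.X.filter (fun n => n < m)).card, Nat.lt_succ_of_le (Finset.card_filter_le _ _)⟩

theorem gap_eq {m : ℕ} {K : ℕ} (hK : K ≤ w.X.card)
    (h : ∀ j : Fin w.X.card, w.ix j < m ↔ j.val < K) : (w.gap m).val = K := by
  have h1 : w.X.filter (fun n => n < m) =
      (Finset.univ : Finset (Fin K)).map
        ⟨fun j => w.ix ⟨j.val, lt_of_lt_of_le j.isLt hK⟩, fun a b hab => by
          have := w.ix_inj hab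
          exact Fin.ext (by simpa using this)⟩ := by
    ext n
    rw [Finset.mem_filter, Finset.mem_map]
    constructor
    · rintro ⟨h1, h2⟩
      obtain ⟨j, rfl⟩ := w.exists_ix h1
      exact ⟨⟨j.val, (h j).1 h2⟩, Finset.mem_univ _, rfl⟩
    · rintro ⟨j, -, rfl⟩
      exact ⟨w.ix_mem _, (h _).2 j.isLt⟩
  change (w.X.filter (fun n => n < m)).card = K
  rw [h1, Finset.card_map, Finset.card_univ, Fintype.card_fin]

/-- the bad segments -/
noncomputable def bad : Finset (Fin (w.X.card + 1)) :=
  insert (Fin.last _) (w.Del.image w.gap)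

theorem card_bad : w.bad.card ≤ w.Del.card + 1 :=
  (Finset.card_insert_le _ _).trans (Nat.add_le_add_right Finset.card_image_le 1)

theorem good_of_ne_zero (huv : u ≠ v) {J : Fin (w.X.card + 1)} (hJ : J ∉ w.bad) (h0 : J ≠ 0) :
    (w.route.arc huv).Good J := by
  have hl : J ≠ Fin.last _ := fun h => hJ (by rw [h]; exact Finset.mem_insert_self _ _)
  have hlt : J.val < w.X.card := by
    have := J.isLt
    have h1 : J.val ≠ w.X.card := fun h => hl (Fin.ext (by simpa using h))
    omega
  have hpos : 0 < J.val := by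
    rcases Nat.eq_zero_or_pos J.val with h | h
    · exact absurd (Fin.ext (by simpa using h)) h0
    · exact h
  set k : Fin w.X.card := ⟨J.val, hlt⟩ with hk
  set i : Fin w.X.card := ⟨J.val - 1, by omega⟩ with hi
  have hJk : J = k.castSucc := Fin.ext (by simp [hk])
  rw [hJk]
  refine ArcData.good_succ (i := i) (k := k) _ (by simp only [hi, hk]; omega) ?_
  refine w.steps huv ?_
  have h1 : w.ix i < w.ix k := w.ix_lt.2 (by rw [Fin.lt_def]; simp only [hi, hk]; omega)
  have h2 := w.lt _ (w.ix_mem k)
  have h3 := w.reach_from (w.ix k - (w.ix i + 1)) (w.step (w.ix i) (by omega)) (by omega) ?_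
  · rw [show w.ix i + 1 + (w.ix k - (w.ix i + 1)) = w.ix k by omega] at h3
    exact h3
  · intro l hl1 hl2
    constructor
    · intro hX
      obtain ⟨j, rfl⟩ := w.exists_ix hX
      have h4 : i < j := w.ix_lt.1 (by omega)
      have h5 : j < k := w.ix_lt.1 (by omega)
      rw [Fin.lt_def] at h4 h5
      simp only [hi, hk] at h4 h5
      omega
    · intro hD
      apply hJ
      refine Finset.mem_insert_of_mem (Finset.mem_image.2 ⟨l, hD, ?_⟩)
      apply Fin.ext
      refine w.gap_eq (by omega) ?_
      intro j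
      constructor
      · intro h4
        have h5 : j < k := w.ix_lt.1 (by omega)
        rw [Fin.lt_def] at h5
        simpa only [hk] using h5
      · intro h4
        have h5 : w.ix j ≤ w.ix i := by
          by_contra hlt
          have h6 : i < j := w.ix_lt.1 (by omega)
          rw [Fin.lt_def] at h6
          simp only [hi] at h6
          omega
        omega

theorem good_zero (huv : u ≠ v) (hJ : (0 : Fin (w.X.card + 1)) ∉ w.bad)
    (hr : Reach T w.P (T.rot w.s0) (w.W 0)) : (w.route.arc huv).Good 0 := by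
  have hl : (0 : Fin (w.X.card + 1)) ≠ Fin.last _ :=
    fun h => hJ (by rw [h]; exact Finset.mem_insert_self _ _)
  have hpos : 0 < w.X.card := by
    rcases Nat.eq_zero_or_pos w.X.card with h | h
    · exact absurd (Fin.ext (by simpa using h.symm)) hl
    · exact h
  set k : Fin w.X.card := ⟨0, hpos⟩ with hk
  refine ArcData.good_zero (i := k) _ rfl ?_
  have := w.steps huv (k := k) (e := T.rot w.s0) (e' := w.W (w.ix k)) ?_
  · exact this
  have h2 := w.lt _ (w.ix_mem k)
  have h3 := w.reach_from (w.ix k) hr (by omega) ?_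
  · rw [Nat.zero_add] at h3; exact h3
  · intro l hl1 hl2
    constructor
    · intro hX
      obtain ⟨j, rfl⟩ := w.exists_ix hX
      have h5 : j < k := w.ix_lt.1 (by omega)
      rw [Fin.lt_def] at h5
      simp [hk] at h5
    · intro hD
      apply hJ
      refine Finset.mem_insert_of_mem (Finset.mem_image.2 ⟨l, hD, ?_⟩)
      apply Fin.ext
      refine w.gap_eq (Nat.zero_le _) ?_
      intro j
      constructor
      · intro h4
        have h5 : j < k := w.ix_lt.1 (by omega)
        rw [Fin.lt_def] at h5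
        simp [hk] at h5
      · intro h4
        exact absurd h4 (Nat.not_lt_zero _)

theorem card_bad' : w.bad.card ≤ w.X.card + 1 := by
  have := Finset.card_le_univ w.bad
  rwa [Fintype.card_fin] at this

/-- The genus bound for a walk which can be entered at its beginning. -/
theorem onSurface (huv : u ≠ v) (hna : ¬ G.Adj u v) {g : ℕ} (hg : T.OnSurface g)
    (hr : Reach T w.P (T.rot w.s0) (w.W 0)) :
    CanThrackle (G ⊔ SimpleGraph.edge u v)
      (g + min w.Del.card
        (G.edgeSet.ncard - ((G.neighborSet u).ncard + (G.neighborSet v).ncard)) + 1) := by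
  have : Finite V := by
    have := T.finite
    refine Finite.of_injective T.mark fun a b h => ?_
    have h1 := T.mark_src a
    rw [h, T.mark_src] at h1
    exact (Option.some.inj h1).symm
  refine ⟨w.route.thrackle huv hna, ?_⟩
  have h1 := w.route.onSurface huv hna hg w.bad ?_
  · have h2 := w.card_bad
    have h3 := w.card_bad'
    have h4 := w.route.length_add_le huv hna
    unfold Thrackle.OnSurface at *
    omega
  · intro J hJ
    by_cases h0 : J = 0
    · subst h0; exact w.good_zero huv hJ hr
    · exact w.good_of_ne_zero huv hJ h0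

/-- The genus bound for a walk from an isolated vertex without deletions. -/
theorem onSurface_iso (huv : u ≠ v) (hu : ∀ z, ¬ G.Adj u z) {g : ℕ} (hg : T.OnSurface g)
    (hD : w.Del = ∅) :
    CanThrackle (G ⊔ SimpleGraph.edge u v) (g + 1) := by
  refine ⟨w.route.thrackle huv (hu v), ?_⟩
  refine w.route.onSurface_iso huv (hu v) hu hg (insert 0 w.bad) ?_ ?_
  · have h2 := w.card_bad
    have h3 := Finset.card_insert_le 0 w.bad
    rw [hD, Finset.card_empty] at h2
    omega
  · intro J hJ
    rw [Finset.mem_insert, not_or] at hJ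
    exact w.good_of_ne_zero huv hJ.2 hJ.1

end Walk

end Pool.Agent.Work.MP_2bb1d3_co_h93
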